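import Mathlib

set_option autoImplicit false

namespace Pool.Agent.Helper929

open Finset

variable {V : Type*} [Fintype V] [DecidableEq V] (G : SimpleGraph V)

/-- Perfect matchings of `G[U]` as involutions. -/
def IsMat (U : Finset V) (σ : Equiv.Perm V) : Prop :=
  (∀ x, σ (σ x) = x) ∧ (∀ x ∈ U, G.Adj x (σ x)) ∧ ∀ x, x ∉ U → σ x = x

open Classical in
noncomputable def mc (U : Finset V) : ℕ := (univ.filter (IsMat G U)).card

theorem mc_empty : mc G ∅ = 1 := by
  classical
  rw [mc, Finset.card_eq_one]
  refine ⟨1, ?_⟩
  ext σ
  simp only [mem_filter, mem_univ, true_and, mem_singleton]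
  constructor
  · rintro ⟨_, _, h⟩
    ext x
    simpa using h x (by simp)
  · rintro rfl
    exact ⟨fun x => rfl, by simp, fun x _ => rfl⟩

omit [Fintype V] in
theorem isMat_mem {U : Finset V} {σ : Equiv.Perm V} (h : IsMat G U σ) {v : V} (hv : v ∈ U) :
    σ v ∈ U.erase v := by
  have h1 := h.2.1 v hv
  rw [mem_erase]
  refine ⟨fun h2 => ?_, ?_⟩
  · rw [h2] at h1
    exact G.loopless.irrefl v h1
  · by_contra h2
    have h3 := h.2.2 _ h2
    rw [h.1 v] at h3
    rw [← h3] at h1
    exact G.loopless.irrefl v h1

open Classical in
theorem mc_rec {U : Finset V} {v : V} (hv : v ∈ U) :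
    mc G U = ∑ w ∈ U.erase v, if G.Adj v w then mc G ((U.erase v).erase w) else 0 := by
  rw [mc, Finset.card_eq_sum_card_fiberwise (f := fun σ => σ v) (t := U.erase v)]
  · apply Finset.sum_congr rfl
    intro w hw
    have hwU : w ∈ U := mem_of_mem_erase hw
    have hwv : w ≠ v := ne_of_mem_erase hw
    split_ifs with hadj
    · rw [mc]
      apply Finset.card_nbij' (fun σ => Equiv.swap v w * σ) (fun σ => Equiv.swap v w * σ)
      · intro σ hσ
        simp only [coe_filter, mem_filter, mem_univ, true_and, Set.mem_ofPred_eq] at hσ ⊢
        obtain ⟨⟨h1, h2, h3⟩, h4⟩ := hσ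
        have h5 : σ w = v := by rw [← h4, h1]
        have key : ∀ x, x ≠ v → x ≠ w → (Equiv.swap v w * σ) x = σ x := by
          intro x hxv hxw
          rw [Equiv.Perm.mul_apply, Equiv.swap_apply_of_ne_of_ne]
          · intro h
            apply hxw
            rw [← h5] at h
            exact σ.injective h
          · intro h
            apply hxv
            rw [← h4] at h
            exact σ.injective h
        have keyv : (Equiv.swap v w * σ) v = v := by
          rw [Equiv.Perm.mul_apply, h4, Equiv.swap_apply_right]
        have keyw : (Equiv.swap v w * σ) w = w := by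
          rw [Equiv.Perm.mul_apply, h5, Equiv.swap_apply_left]
        refine ⟨?_, ?_, ?_⟩
        · intro x
          by_cases hxv : x = v
          · rw [hxv, keyv, keyv]
          · by_cases hxw : x = w
            · rw [hxw, keyw, keyw]
            · rw [key x hxv hxw, key, h1]
              · intro h
                apply hxw
                rw [← h4, ← h, h1]
              · intro h
                apply hxv
                rw [← h5, ← h, h1]
        · intro x hx
          have hxw : x ≠ w := ne_of_mem_erase hx
          have hxv : x ≠ v := ne_of_mem_erase (mem_of_mem_erase hx)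
          rw [key x hxv hxw]
          exact h2 x (mem_of_mem_erase (mem_of_mem_erase hx))
        · intro x hx
          by_cases hxv : x = v
          · rw [hxv, keyv]
          · by_cases hxw : x = w
            · rw [hxw, keyw]
            · rw [key x hxv hxw]
              apply h3
              intro h
              apply hx
              rw [mem_erase, mem_erase]
              exact ⟨hxw, hxv, h⟩
      · intro σ hσ
        simp only [coe_filter, mem_filter, mem_univ, true_and, Set.mem_ofPred_eq] at hσ ⊢
        obtain ⟨h1, h2, h3⟩ := hσ
        have h4 : σ v = v := h3 v (by simp)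
        have h5 : σ w = w := h3 w (by simp)
        have key : ∀ x, x ≠ v → x ≠ w → (Equiv.swap v w * σ) x = σ x := by
          intro x hxv hxw
          rw [Equiv.Perm.mul_apply, Equiv.swap_apply_of_ne_of_ne]
          · intro h
            apply hxv
            rw [← h4] at h
            exact σ.injective h
          · intro h
            apply hxw
            rw [← h5] at h
            exact σ.injective h
        have keyv : (Equiv.swap v w * σ) v = w := by
          rw [Equiv.Perm.mul_apply, h4, Equiv.swap_apply_left]
        have keyw : (Equiv.swap v w * σ) w = v := by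
          rw [Equiv.Perm.mul_apply, h5, Equiv.swap_apply_right]
        refine ⟨⟨?_, ?_, ?_⟩, keyv⟩
        · intro x
          by_cases hxv : x = v
          · rw [hxv, keyv, keyw]
          · by_cases hxw : x = w
            · rw [hxw, keyw, keyv]
            · rw [key x hxv hxw, key, h1]
              · intro h
                apply hxv
                rw [← h1 x, h, h4]
              · intro h
                apply hxw
                rw [← h1 x, h, h5]
        · intro x hx
          by_cases hxv : x = v
          · rw [hxv, keyv]
            exact hadj
          · by_cases hxw : x = w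
            · rw [hxw, keyw]
              exact hadj.symm
            · rw [key x hxv hxw]
              apply h2
              rw [mem_erase, mem_erase]
              exact ⟨hxw, hxv, hx⟩
        · intro x hx
          have hxv : x ≠ v := by
            rintro rfl
            exact hx hv
          have hxw : x ≠ w := by
            rintro rfl
            exact hx hwU
          rw [key x hxv hxw]
          apply h3
          intro h
          exact hx (mem_of_mem_erase (mem_of_mem_erase h))
      · intro σ _
        simp
      · intro σ _
        simp
    · rw [Finset.card_eq_zero, Finset.filter_eq_empty_iff]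
      intro σ hσ h4
      simp only [mem_filter, mem_univ, true_and] at hσ
      apply hadj
      rw [← h4]
      exact hσ.2.1 v hv
  · intro σ hσ
    simp only [coe_filter, mem_univ, true_and, Set.mem_ofPred_eq] at hσ
    exact isMat_mem G hσ hv

theorem card_perfectMatching :
    Nat.card {M : G.Subgraph // M.IsPerfectMatching} = mc G univ := by
  classical
  have h1 : mc G univ = Nat.card {σ : Equiv.Perm V // IsMat G univ σ} := by
    rw [mc, Nat.card_eq_fintype_card, Fintype.card_subtype]
  rw [h1]
  have hM : ∀ M : {M : G.Subgraph // M.IsPerfectMatching}, ∀ v, ∃! w, M.1.Adj v w :=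
    fun M => SimpleGraph.Subgraph.isPerfectMatching_iff.1 M.2
  have hinv : ∀ M : {M : G.Subgraph // M.IsPerfectMatching}, ∀ v,
      (hM M ((hM M v).choose)).choose = v := by
    intro M v
    have h2 := (hM M v).choose_spec.1
    have h3 := (hM M ((hM M v).choose)).choose_spec.2 v (M.1.symm.symm _ _ h2)
    exact h3.symm
  apply Nat.card_congr
  refine Equiv.ofBijective (fun M => ⟨⟨fun v => (hM M v).choose, fun v => (hM M v).choose,
    hinv M, hinv M⟩, hinv M, fun v _ => M.1.adj_sub (hM M v).choose_spec.1,
    fun v hv => absurd (mem_univ v) hv⟩) ⟨?_, ?_⟩
  · intro M N hMN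
    have h4 : ∀ v, (hM M v).choose = (hM N v).choose := by
      intro v
      have h5 := congrArg (fun σ => σ.1 v) hMN
      exact h5
    have h6 : ∀ v w, M.1.Adj v w ↔ N.1.Adj v w := by
      intro v w
      constructor
      · intro h
        have h7 := (hM M v).choose_spec.2 w h
        rw [h7, h4]
        exact (hM N v).choose_spec.1
      · intro h
        have h7 := (hM N v).choose_spec.2 w h
        rw [h7, ← h4]
        exact (hM M v).choose_spec.1
    apply Subtype.ext
    apply SimpleGraph.Subgraph.ext
    · ext v
      exact ⟨fun _ => N.2.2 v, fun _ => M.2.2 v⟩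
    · ext v w
      exact h6 v w
  · rintro ⟨σ, hσ⟩
    let M : G.Subgraph :=
      { verts := Set.univ
        Adj := fun x y => σ x = y
        adj_sub := by
          intro x y h
          rw [← h]
          exact hσ.2.1 x (mem_univ x)
        edge_vert := fun _ => Set.mem_univ _
        symm := ⟨fun x y h => by
          rw [← h]
          exact hσ.1 x⟩ }
    have hMp : M.IsPerfectMatching := by
      rw [SimpleGraph.Subgraph.isPerfectMatching_iff]
      intro v
      exact ⟨σ v, rfl, fun w hw => Eq.symm hw⟩
    refine ⟨⟨M, hMp⟩, ?_⟩
    apply Subtype.ext
    ext v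
    have h8 : M.Adj v (hM ⟨M, hMp⟩ v).choose := (hM ⟨M, hMp⟩ v).choose_spec.1
    exact Eq.symm h8

end Pool.Agent.Helper929
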