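import Mathlib
import Pool.Agent.Helper929.Pfaffian
import Pool.Agent.Helper929.Match

set_option autoImplicit false

namespace Pool.Agent.Helper929

open Finset

variable {V : Type*} [Fintype V] [DecidableEq V]

/-- Sign conditions that make the Pfaffian expansion positive. -/
structure Kast (G : SimpleGraph V) (K : V → V → ℤ) (idx : V → ℕ) (R : V → V → Prop) : Prop where
  inj : Function.Injective idx
  cnt : ∀ w, (univ.filter (fun x => idx x < idx w)).card = idx w
  zero : ∀ v w, ¬ G.Adj v w → K v w = 0
  adj : ∀ v w, G.Adj v w → idx w < idx v →
    (K v w = 1 ∧ ∀ x, ¬ (idx w < idx x ∧ idx x < idx v)) ∨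
    (K v w = (-1) ^ (idx w) ∧ ∀ x, R x v → x ≠ w → idx x < idx v → idx w < idx x)
  prop : ∀ x v v', R x v → idx x < idx v' → idx v' < idx v → R x v'
  prop' : ∀ w v v', G.Adj v w → idx w < idx v' → idx v' < idx v → R w v'

theorem pf_eq_mc {G : SimpleGraph V} {K : V → V → ℤ} {idx : V → ℕ} {R : V → V → Prop}
    (hK : Kast G K idx R) : ∀ (k : ℕ) (_ : Even k) (v : Fin k → V)
    (_ : ∀ i j, i < j → idx (v j) < idx (v i))
    (_ : ∀ (h : 0 < k) (x : V), idx x < idx (v ⟨0, h⟩) → x ∉ Set.range v → R x (v ⟨0, h⟩)),
    pf k (Matrix.of fun i j => K (v i) (v j)) = mc G (univ.image v)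
  | 0, _, v, _, _ => by
    simp [pf, mc_empty]
  | 1, h, v, _, _ => by
    simp at h
  | (k + 2), hk, v, hv, hR => by
    classical
    have hkE : Even k := by
      rw [Nat.even_add] at hk
      exact hk.2 even_two
    have hinj : Function.Injective v := by
      intro a b hab
      rcases lt_trichotomy a b with h | h | h
      · have := hv a b h
        rw [hab] at this
        exact absurd this (lt_irrefl _)
      · exact h
      · have := hv b a h
        rw [hab] at this
        exact absurd this (lt_irrefl _)
    have hU : (univ.image v).erase (v 0) = univ.image (fun j : Fin (k + 1) => v j.succ) := by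
      ext x
      simp only [mem_erase, mem_image, mem_univ, true_and]
      constructor
      · rintro ⟨h1, a, rfl⟩
        have ha : a ≠ 0 := fun h => h1 (by rw [h])
        obtain ⟨b, rfl⟩ := Fin.exists_succ_eq.2 ha
        exact ⟨b, rfl⟩
      · rintro ⟨a, rfl⟩
        exact ⟨fun h => absurd (hinj h) (Fin.succ_ne_zero a), a.succ, rfl⟩
    rw [mc_rec G (U := univ.image v) (v := v 0) (mem_image_of_mem _ (mem_univ _)), hU,
      Finset.sum_image (by
        intro a _ b _ hab
        exact Fin.succ_injective _ (hinj hab))]
    push_cast
    simp only [pf]
    apply Finset.sum_congr rfl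
    intro j _
    have hlt : idx (v j.succ) < idx (v 0) := hv 0 j.succ (Fin.succ_pos j)
    simp only [Matrix.of_apply]
    split_ifs with hadj
    · -- the sign
      have hsign : (-1 : ℤ) ^ (j : ℕ) * K (v 0) (v j.succ) = 1 := by
        rcases hK.adj _ _ hadj hlt with ⟨h1, h2⟩ | ⟨h1, h2⟩
        · have hj : j = 0 := by
            by_contra hne
            have hpos : 0 < j := Fin.pos_of_ne_zero hne
            apply h2 (v 1)
            have h01 : (0 : Fin (k + 2)) < 1 := by
              rw [Fin.lt_def]
              simp
            refine ⟨hv 1 j.succ ?_, hv 0 1 h01⟩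
            rw [Fin.lt_def]
            simp
            exact hpos
          rw [h1, hj]
          simp
        · have hsub : univ.filter (fun x => idx x < idx (v j.succ)) =
              (univ.filter (fun i : Fin (k + 2) => j.succ < i)).image v := by
            ext x
            simp only [mem_filter, mem_univ, true_and, mem_image]
            constructor
            · intro hx
              by_cases hxr : x ∈ Set.range v
              · obtain ⟨i, rfl⟩ := hxr
                refine ⟨i, ?_, rfl⟩
                by_contra hi
                rcases lt_or_eq_of_le (not_lt.1 hi) with h | h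
                · exact absurd hx (not_lt.2 (le_of_lt (hv i j.succ h)))
                · rw [h] at hx
                  exact absurd hx (lt_irrefl _)
              · exfalso
                have h3 := hR (Nat.succ_pos _) x (lt_trans hx hlt) hxr
                have h4 : x ≠ v j.succ := by
                  rintro rfl
                  exact hxr ⟨_, rfl⟩
                exact absurd (h2 x h3 h4 (lt_trans hx hlt)) (not_lt.2 (le_of_lt hx))
            · rintro ⟨i, hi, rfl⟩
              exact hv _ _ hi
          have hcard := hK.cnt (v j.succ)
          rw [hsub, Finset.card_image_of_injective _ hinj] at hcard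
          have hcard2 : (univ.filter (fun i : Fin (k + 2) => j.succ < i)).card = k - j := by
            have h5 : (univ.filter (fun i : Fin (k + 2) => j.succ < i)) = Finset.Ioi j.succ := by
              ext i
              simp
            rw [h5, Fin.card_Ioi, Fin.val_succ]
            omega
          rw [hcard2] at hcard
          rw [h1, ← hcard, ← pow_add]
          have h6 : (j : ℕ) + (k - j) = k := by
            have := j.2
            omega
          rw [h6]
          exact hkE.neg_one_pow
      rw [hsign, one_mul]
      have hih := pf_eq_mc hK k hkE (fun i => v (j.succAbove i).succ)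
        (by
          intro a b hab
          apply hv
          rw [Fin.succ_lt_succ_iff]
          exact (Fin.succAbove_lt_succAbove_iff).2 hab)
        (by
          intro h x hx hxr
          have hlt2 : idx (v (j.succAbove ⟨0, h⟩).succ) < idx (v 0) :=
            hv 0 _ (Fin.succ_pos _)
          by_cases hxw : x = v j.succ
          · rw [hxw]
            rw [hxw] at hx
            exact hK.prop' _ _ _ hadj hx hlt2
          · apply hK.prop x (v 0) _ _ hx hlt2
            apply hR (Nat.succ_pos _) x (lt_trans hx hlt2)
            rintro ⟨i, hi⟩
            have hi0 : i ≠ 0 := by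
              rintro rfl
              have h7 := lt_trans hx hlt2
              rw [← hi] at h7
              exact absurd h7 (lt_irrefl _)
            obtain ⟨b, rfl⟩ := Fin.exists_succ_eq.2 hi0
            have hbj : b ≠ j := by
              rintro rfl
              exact hxw hi.symm
            obtain ⟨c, rfl⟩ := Fin.exists_succAbove_eq hbj
            exact hxr ⟨c, hi⟩)
      have himg : ((univ.image (fun j : Fin (k + 1) => v j.succ)).erase (v j.succ)) =
          univ.image (fun i => v (j.succAbove i).succ) := by
        ext x
        simp only [mem_erase, mem_image, mem_univ, true_and]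
        constructor
        · rintro ⟨h1, a, rfl⟩
          have ha : a ≠ j := fun h => h1 (by rw [h])
          obtain ⟨b, rfl⟩ := Fin.exists_succAbove_eq ha
          exact ⟨b, rfl⟩
        · rintro ⟨a, rfl⟩
          refine ⟨fun h => ?_, j.succAbove a, rfl⟩
          exact absurd (Fin.succ_injective _ (hinj h)) (Fin.succAbove_ne j a)
      rw [himg, ← hih]
      rfl
    · rw [hK.zero _ _ hadj]
      simp

end Pool.Agent.Helper929
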