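import Mathlib
import Pool.Agent.Helper929.Kast

set_option autoImplicit false

namespace Pool.Agent.Helper929

open Finset

/-- Vertices `(i, j)` with `0 ≤ j ≤ i ≤ n - 1`. -/
abbrev Vert (n : ℕ) : Type := {x : ℕ × ℕ // x.2 ≤ x.1 ∧ x.1 < n}

/-- `b - a` is one of `(0,1)`, `(1,0)`, `(1,1)`. -/
def Step (a b : ℕ × ℕ) : Prop :=
  b = (a.1, a.2 + 1) ∨ b = (a.1 + 1, a.2) ∨ b = (a.1 + 1, a.2 + 1)

instance (a b : ℕ × ℕ) : Decidable (Step a b) := by unfold Step; infer_instance

/-- The triangle graph. -/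
def triangleGraph (n : ℕ) : SimpleGraph (Vert n) where
  Adj x y := Step x.1 y.1 ∨ Step y.1 x.1
  symm := ⟨fun _ _ h => h.symm⟩
  loopless := ⟨fun x h => by
    rcases h with h | h <;> rcases h with h | h | h <;>
      simp [Prod.ext_iff] at h⟩

noncomputable instance (n : ℕ) : Fintype (Vert n) :=
  Fintype.ofInjective (fun x : Vert n => ((⟨x.1.1, x.2.2⟩, ⟨x.1.2, lt_of_le_of_lt x.2.1 x.2.2⟩) :
    Fin n × Fin n)) (by
      intro x y h
      simp only [Prod.mk.injEq, Fin.mk.injEq] at h
      exact Subtype.ext (Prod.ext h.1 h.2))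

/-- Triangular numbers. -/
def tri : ℕ → ℕ
  | 0 => 0
  | (i + 1) => tri i + (i + 1)

theorem tri_succ (i : ℕ) : tri (i + 1) = tri i + (i + 1) := rfl

theorem tri_mono {a b : ℕ} (h : a ≤ b) : tri a ≤ tri b := by
  induction b with
  | zero =>
    have : a = 0 := by omega
    rw [this]
  | succ b ih =>
    rcases Nat.lt_or_ge b a with h1 | h1
    · have : a = b + 1 := by omega
      rw [this]
    · have := ih h1
      rw [tri_succ]
      omega

/-- Row-major index. -/
def idx (x : ℕ × ℕ) : ℕ := tri x.1 + x.2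

theorem idx_lt {n : ℕ} (x y : Vert n) :
    idx x.1 < idx y.1 ↔ (x.1.1 < y.1.1 ∨ (x.1.1 = y.1.1 ∧ x.1.2 < y.1.2)) := by
  obtain ⟨⟨a, b⟩, hab, _⟩ := x
  obtain ⟨⟨c, d⟩, hcd, _⟩ := y
  simp only [idx] at *
  constructor
  · intro h
    rcases lt_trichotomy a c with h1 | h1 | h1
    · exact Or.inl h1
    · subst h1
      right
      omega
    · exfalso
      have h2 := tri_mono (show c + 1 ≤ a from h1)
      rw [tri_succ] at h2
      omega
  · rintro (h1 | ⟨h1, h2⟩)
    · have h2 := tri_mono (show a + 1 ≤ c from h1)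
      rw [tri_succ] at h2
      omega
    · subst h1
      omega

theorem idx_inj (n : ℕ) : Function.Injective (fun x : Vert n => idx x.1) := by
  intro x y h
  have h1 := idx_lt x y
  have h2 := idx_lt y x
  simp only at h
  rw [h] at h1 h2
  simp only [lt_irrefl, false_iff] at h1 h2
  apply Subtype.ext
  apply Prod.ext <;> omega

theorem idx_surj (n : ℕ) : ∀ k, k < tri n → ∃ x : Vert n, idx x.1 = k := by
  intro k
  induction k with
  | zero =>
    intro h
    have hn : 0 < n := by
      rcases Nat.eq_zero_or_pos n with h1 | h1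
      · subst h1
        simp [tri] at h
      · exact h1
    exact ⟨⟨(0, 0), le_refl _, hn⟩, rfl⟩
  | succ k ih =>
    intro h
    obtain ⟨⟨⟨i, j⟩, hij, hin⟩, hk⟩ := ih (by omega)
    simp only [idx] at *
    by_cases hji : j < i
    · exact ⟨⟨(i, j + 1), hji, hin⟩, by simp only; omega⟩
    · have hj : j = i := by omega
      have hi : i + 1 < n := by
        by_contra h2
        have h3 := tri_mono (show n ≤ i + 1 by omega)
        rw [tri_succ] at h3
        omega
      refine ⟨⟨(i + 1, 0), Nat.zero_le _, hi⟩, ?_⟩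
      simp only [tri_succ]
      omega

theorem idx_bound {n : ℕ} (x : Vert n) : idx x.1 < tri n := by
  obtain ⟨⟨a, b⟩, hab, han⟩ := x
  simp only [idx] at *
  have h2 := tri_mono (show a + 1 ≤ n from han)
  rw [tri_succ] at h2
  omega

theorem idx_cnt {n : ℕ} (w : Vert n) :
    (univ.filter (fun x : Vert n => idx x.1 < idx w.1)).card = idx w.1 := by
  rw [← Finset.card_image_of_injective _ (idx_inj n)]
  have h : (univ.filter (fun x : Vert n => idx x.1 < idx w.1)).image (fun x => idx x.1) =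
      Finset.range (idx w.1) := by
    ext k
    simp only [mem_image, mem_filter, mem_univ, true_and, mem_range]
    constructor
    · rintro ⟨x, hx, rfl⟩
      exact hx
    · intro hk
      obtain ⟨x, hx⟩ := idx_surj n k (lt_trans hk (idx_bound w))
      exact ⟨x, by rw [hx]; exact hk, hx⟩
  rw [h, Finset.card_range]

/-- The signed adjacency function (positive on smaller second argument). -/
def kf (v w : ℕ × ℕ) : ℤ :=
  if v = (w.1, w.2 + 1) then 1
  else if v = (w.1 + 1, w.2) ∨ v = (w.1 + 1, w.2 + 1) then (-1) ^ (idx w)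
  else if w = (v.1, v.2 + 1) then -1
  else if w = (v.1 + 1, v.2) ∨ w = (v.1 + 1, v.2 + 1) then - (-1) ^ (idx v)
  else 0

/-- Missing-vertex relation. -/
def rel (x y : ℕ × ℕ) : Prop := x.1 = y.1 ∨ (x.1 + 1 = y.1 ∧ y.2 ≤ x.2)

theorem tri_kast (n : ℕ) : Kast (triangleGraph n) (fun v w => kf v.1 w.1)
    (fun x => idx x.1) (fun x y => rel x.1 y.1) where
  inj := idx_inj n
  cnt := idx_cnt
  zero := by
    intro v w h
    simp only [triangleGraph, Step, not_or] at h
    obtain ⟨⟨h1, h2, h3⟩, h4, h5, h6⟩ := h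
    simp only [kf]
    rw [if_neg h4, if_neg (by tauto), if_neg h1, if_neg (by tauto)]
  adj := by
    intro v w h hlt
    rw [idx_lt] at hlt
    obtain ⟨⟨a, b⟩, hab, han⟩ := v
    obtain ⟨⟨c, d⟩, hcd, hcn⟩ := w
    simp only [triangleGraph, Step, Prod.mk.injEq] at h
    simp only at hlt hab hcd
    have h' : (a = c ∧ b = d + 1) ∨ (a = c + 1 ∧ b = d) ∨ (a = c + 1 ∧ b = d + 1) := by
      omega
    rcases h' with ⟨h1, h2⟩ | ⟨h1, h2⟩ | ⟨h1, h2⟩
    · left
      subst h1 h2
      refine ⟨by simp [kf], ?_⟩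
      intro x ⟨hx1, hx2⟩
      rw [idx_lt] at hx1 hx2
      simp only at hx1 hx2
      omega
    · right
      subst h1 h2
      refine ⟨by simp [kf], ?_⟩
      intro x hx1 hx2 hx3
      rw [idx_lt] at hx3 ⊢
      obtain ⟨⟨e, f⟩, hef, hen⟩ := x
      simp only [rel] at hx1 hx3 hef ⊢
      have hx4 : ¬ (e = c ∧ f = b) := by
        rintro ⟨rfl, rfl⟩
        exact hx2 rfl
      omega
    · right
      subst h1 h2
      refine ⟨by simp [kf], ?_⟩
      intro x hx1 hx2 hx3
      rw [idx_lt] at hx3 ⊢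
      obtain ⟨⟨e, f⟩, hef, hen⟩ := x
      simp only [rel] at hx1 hx3 hef ⊢
      omega
  prop := by
    intro x v v' h1 h2 h3
    rw [idx_lt] at h2 h3
    simp only [rel] at h1 ⊢
    have h4 := v'.2.1
    omega
  prop' := by
    intro w v v' h1 h2 h3
    rw [idx_lt] at h2 h3
    simp only [triangleGraph, Step, Prod.ext_iff] at h1
    simp only [rel]
    omega

end Pool.Agent.Helper929
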