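import Mathlib
import Pool.Agent.Helper929.Tri

set_option autoImplicit false

namespace Pool.Agent.Helper929

open Finset

theorem kf_anti (v w : ℕ × ℕ) : kf v w = - kf w v := by
  obtain ⟨a, b⟩ := v
  obtain ⟨c, d⟩ := w
  simp only [kf, Prod.mk.injEq]
  split_ifs <;> omega

/-- The signed adjacency matrix. -/
noncomputable def kmat (n : ℕ) : Matrix (Vert n) (Vert n) ℤ := Matrix.of fun v w => kf v.1 w.1

noncomputable def enum (n : ℕ) (k : Fin (tri n)) : Vert n :=
  (idx_surj n (tri n - 1 - k) (by have := k.2; omega)).choose

theorem enum_idx (n : ℕ) (k : Fin (tri n)) : idx (enum n k).1 = tri n - 1 - k :=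
  (idx_surj n (tri n - 1 - k) (by have := k.2; omega)).choose_spec

theorem enum_bij (n : ℕ) : Function.Bijective (enum n) := by
  constructor
  · intro a b h
    have h1 := enum_idx n a
    have h2 := enum_idx n b
    rw [h] at h1
    have := a.2
    have := b.2
    apply Fin.ext
    omega
  · intro x
    have h1 := idx_bound x
    refine ⟨⟨tri n - 1 - idx x.1, by omega⟩, ?_⟩
    apply idx_inj n
    simp only
    rw [enum_idx]
    simp only
    omega

theorem count_sq (n : ℕ) (hn : Even (tri n)) :
    ((mc (triangleGraph n) univ : ℕ) : ℤ) ^ 2 = (kmat n).det := by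
  have h1 := pf_eq_mc (tri_kast n) (tri n) hn (enum n)
    (by
      intro i j hij
      rw [enum_idx, enum_idx]
      have h2 := j.2
      have h3 : (i : ℕ) < j := hij
      omega)
    (by
      intro h x hx hxr
      exact absurd ((enum_bij n).2 x) hxr)
  have h2 : univ.image (enum n) = univ := by
    ext x
    simp only [mem_image, mem_univ, true_and, iff_true]
    exact (enum_bij n).2 x
  rw [h2] at h1
  rw [← h1, pf_sq_int]
  · have h3 := Matrix.det_submatrix_equiv_self (Equiv.ofBijective _ (enum_bij n)) (kmat n)
    rw [← h3]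
    rfl
  · intro i j
    exact kf_anti _ _

end Pool.Agent.Helper929
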