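import Mathlib
import Pool.Agent.Helper929.Count

set_option autoImplicit false

namespace Pool.Agent.Helper929

open Finset

/-- `(-1)^p`. -/
def e (p : ℤ) : ℤ := if p % 2 = 0 then 1 else -1

/-- `(-1)^(p(p-1)/2)`. -/
def th (p : ℤ) : ℤ := if p % 4 = 0 ∨ p % 4 = 1 then 1 else -1

/-- Signed adjacency in the coordinates `(p, q)`. -/
def kz (p q p' q' : ℤ) : ℤ :=
  (if p' = p + 1 ∧ q' = q - 1 then 1 else 0) - (if p' = p - 1 ∧ q' = q + 1 then 1 else 0)
  - e p * ((if p' = p ∧ q' = q + 1 then 1 else 0) + (if p' = p + 1 ∧ q' = q then 1 else 0)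
    - (if p' = p ∧ q' = q - 1 then 1 else 0) + (if p' = p - 1 ∧ q' = q then 1 else 0))

theorem e_succ (p : ℤ) : e (p + 1) = - e p := by
  unfold e
  split_ifs <;> omega

theorem e_pred (p : ℤ) : e (p - 1) = - e p := by
  unfold e
  split_ifs <;> omega

theorem kz_anti (p q p' q' : ℤ) : kz p q p' q' = - kz p' q' p q := by
  by_cases h1 : p' = p + 1 ∧ q' = q - 1
  · obtain ⟨rfl, rfl⟩ := h1
    unfold kz
    rw [if_pos (by omega), if_neg (by omega), if_neg (by omega), if_neg (by omega), if_neg (by omega), if_neg (by omega)]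
    rw [if_neg (by omega), if_pos (by omega), if_neg (by omega), if_neg (by omega), if_neg (by omega), if_neg (by omega)]
    ring
  by_cases h2 : p' = p - 1 ∧ q' = q + 1
  · obtain ⟨rfl, rfl⟩ := h2
    unfold kz
    rw [if_neg (by omega), if_pos (by omega), if_neg (by omega), if_neg (by omega), if_neg (by omega), if_neg (by omega)]
    rw [if_pos (by omega), if_neg (by omega), if_neg (by omega), if_neg (by omega), if_neg (by omega), if_neg (by omega)]
    ring
  by_cases h3 : p' = p ∧ q' = q + 1
  · obtain ⟨rfl, rfl⟩ := h3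
    unfold kz
    rw [if_neg (by omega), if_neg (by omega), if_pos (by omega), if_neg (by omega), if_neg (by omega), if_neg (by omega)]
    rw [if_neg (by omega), if_neg (by omega), if_neg (by omega), if_neg (by omega), if_pos (by omega), if_neg (by omega)]
    ring
  by_cases h4 : p' = p + 1 ∧ q' = q
  · obtain ⟨rfl, rfl⟩ := h4
    unfold kz
    rw [if_neg (by omega), if_neg (by omega), if_neg (by omega), if_pos (by omega), if_neg (by omega), if_neg (by omega)]
    rw [if_neg (by omega), if_neg (by omega), if_neg (by omega), if_neg (by omega), if_neg (by omega), if_pos (by omega)]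
    rw [e_succ]
    ring
  by_cases h5 : p' = p ∧ q' = q - 1
  · obtain ⟨rfl, rfl⟩ := h5
    unfold kz
    rw [if_neg (by omega), if_neg (by omega), if_neg (by omega), if_neg (by omega), if_pos (by omega), if_neg (by omega)]
    rw [if_neg (by omega), if_neg (by omega), if_pos (by omega), if_neg (by omega), if_neg (by omega), if_neg (by omega)]
    ring
  by_cases h6 : p' = p - 1 ∧ q' = q
  · obtain ⟨rfl, rfl⟩ := h6
    unfold kz
    rw [if_neg (by omega), if_neg (by omega), if_neg (by omega), if_neg (by omega), if_neg (by omega), if_pos (by omega)]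
    rw [if_neg (by omega), if_neg (by omega), if_neg (by omega), if_pos (by omega), if_neg (by omega), if_neg (by omega)]
    rw [e_pred]
    ring
  unfold kz
  rw [if_neg h1, if_neg h2, if_neg h3, if_neg h4, if_neg h5, if_neg h6]
  rw [if_neg (by omega), if_neg (by omega), if_neg (by omega), if_neg (by omega),
    if_neg (by omega), if_neg (by omega)]
  ring

/-- First coordinate. -/
def cP {n : ℕ} (v : Vert n) : ℤ := (v.1.2 : ℤ) + 1
/-- Second coordinate. -/
def cQ {n : ℕ} (v : Vert n) : ℤ := (v.1.1 : ℤ) - v.1.2 + 1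

/-- Row sign. -/
def ds (i : ℕ) : ℤ := if i % 4 = 2 then -1 else 1

theorem ds_sq (i : ℕ) : ds i * ds i = 1 := by
  unfold ds
  split_ifs <;> rfl

theorem ds_tri (i : ℕ) : ds i * ds (i + 1) = (-1) ^ (tri i) := by
  have h : ∀ k : ℕ, (-1 : ℤ) ^ (tri (4 * k)) = 1 ∧ (-1 : ℤ) ^ (tri (4 * k + 1)) = -1 ∧
      (-1 : ℤ) ^ (tri (4 * k + 2)) = -1 ∧ (-1 : ℤ) ^ (tri (4 * k + 3)) = 1 := by
    intro k
    have step : ∀ a : ℕ, (-1 : ℤ) ^ (tri (a + 1)) = (-1) ^ (tri a) * (-1) ^ (a + 1) := by
      intro a
      rw [tri_succ, pow_add]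
    have h0 : (-1 : ℤ) ^ (tri (4 * k)) = 1 := by
      induction k with
      | zero => simp [tri]
      | succ k ih =>
        have h5 : 4 * (k + 1) = 4 * k + 1 + 1 + 1 + 1 := by ring
        rw [h5, step, step, step, step, ih]
        have e1 : (-1 : ℤ) ^ (4 * k) = 1 := by
          rw [pow_mul]
          norm_num
        simp only [pow_succ, e1]
        norm_num
    have e1 : (-1 : ℤ) ^ (4 * k) = 1 := by
      rw [pow_mul]
      norm_num
    refine ⟨h0, ?_, ?_, ?_⟩
    · rw [step, h0]
      simp only [pow_succ, e1]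
      norm_num
    · rw [step, step, h0]
      simp only [pow_succ, e1]
      norm_num
    · rw [step, step, step, h0]
      simp only [pow_succ, e1]
      norm_num
  obtain ⟨h0, h1, h2, h3⟩ := h (i / 4)
  have hi : i = 4 * (i / 4) + i % 4 := (Nat.div_add_mod i 4).symm
  have hlt : i % 4 < 4 := Nat.mod_lt _ (by norm_num)
  unfold ds
  rcases (show i % 4 = 0 ∨ i % 4 = 1 ∨ i % 4 = 2 ∨ i % 4 = 3 by omega) with h | h | h | h
  · rw [if_neg (by omega), if_neg (by omega)]
    rw [h] at hi
    rw [hi, Nat.add_zero, h0]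
    rfl
  · rw [if_neg (by omega), if_pos (by omega)]
    rw [h] at hi
    rw [hi, h1]
    rfl
  · rw [if_pos (by omega), if_neg (by omega)]
    rw [h] at hi
    rw [hi, h2]
    rfl
  · rw [if_neg (by omega), if_neg (by omega)]
    rw [h] at hi
    rw [hi, h3]
    rfl

theorem neg_one_pow_e (b : ℕ) : ((-1 : ℤ)) ^ b = e b := by
  unfold e
  rcases Nat.even_or_odd b with h | h
  · rw [h.neg_one_pow, if_pos]
    obtain ⟨c, hc⟩ := h
    omega
  · rw [h.neg_one_pow, if_neg]
    obtain ⟨c, hc⟩ := h
    omega

theorem kf_kz {n : ℕ} (v w : Vert n) :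
    kf v.1 w.1 = - (ds v.1.1 * ds w.1.1) * kz (cP v) (cQ v) (cP w) (cQ w) := by
  obtain ⟨⟨a, b⟩, hab, han⟩ := v
  obtain ⟨⟨c, d⟩, hcd, hcn⟩ := w
  simp only [cP, cQ, kf, Prod.mk.injEq] at *
  by_cases h1 : a = c ∧ b = d + 1
  · obtain ⟨rfl, rfl⟩ := h1
    rw [if_pos (by simp)]
    unfold kz
    rw [if_neg (by push_cast; omega), if_pos (by push_cast; omega), if_neg (by push_cast; omega),
      if_neg (by push_cast; omega), if_neg (by push_cast; omega), if_neg (by push_cast; omega),
      ds_sq]
    ring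
  rw [if_neg h1]
  by_cases h2 : a = c + 1 ∧ b = d
  · obtain ⟨rfl, rfl⟩ := h2
    rw [if_pos (by simp)]
    unfold kz
    rw [if_neg (by push_cast; omega), if_neg (by push_cast; omega), if_neg (by push_cast; omega),
      if_neg (by push_cast; omega), if_pos (by push_cast; omega), if_neg (by push_cast; omega)]
    simp only [idx]
    rw [pow_add, ← ds_tri, neg_one_pow_e, e_succ]
    ring
  by_cases h3 : a = c + 1 ∧ b = d + 1
  · obtain ⟨rfl, rfl⟩ := h3
    rw [if_pos (by simp)]
    unfold kz
    rw [if_neg (by push_cast; omega), if_neg (by push_cast; omega), if_neg (by push_cast; omega),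
      if_neg (by push_cast; omega), if_neg (by push_cast; omega), if_pos (by push_cast; omega)]
    simp only [idx]
    rw [pow_add, ← ds_tri, neg_one_pow_e]
    push_cast
    rw [e_succ, e_succ]
    ring
  rw [if_neg (by omega)]
  by_cases h4 : c = a ∧ d = b + 1
  · obtain ⟨rfl, rfl⟩ := h4
    rw [if_pos (by simp)]
    unfold kz
    rw [if_pos (by push_cast; omega), if_neg (by push_cast; omega), if_neg (by push_cast; omega),
      if_neg (by push_cast; omega), if_neg (by push_cast; omega), if_neg (by push_cast; omega),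
      ds_sq]
    ring
  rw [if_neg h4]
  by_cases h5 : c = a + 1 ∧ d = b
  · obtain ⟨rfl, rfl⟩ := h5
    rw [if_pos (by simp)]
    unfold kz
    rw [if_neg (by push_cast; omega), if_neg (by push_cast; omega), if_pos (by push_cast; omega),
      if_neg (by push_cast; omega), if_neg (by push_cast; omega), if_neg (by push_cast; omega)]
    simp only [idx]
    rw [pow_add, ← ds_tri, neg_one_pow_e, e_succ]
    ring
  by_cases h6 : c = a + 1 ∧ d = b + 1
  · obtain ⟨rfl, rfl⟩ := h6
    rw [if_pos (by simp)]
    unfold kz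
    rw [if_neg (by push_cast; omega), if_neg (by push_cast; omega), if_neg (by push_cast; omega),
      if_pos (by push_cast; omega), if_neg (by push_cast; omega), if_neg (by push_cast; omega)]
    simp only [idx]
    rw [pow_add, ← ds_tri, neg_one_pow_e, e_succ]
    ring
  rw [if_neg (by omega)]
  unfold kz
  rw [if_neg (by omega), if_neg (by omega), if_neg (by omega),
      if_neg (by omega), if_neg (by omega), if_neg (by omega)]
  ring

/-- Signed adjacency matrix in the second gauge. -/
noncomputable def ko (n : ℕ) : Matrix (Vert n) (Vert n) ℤ :=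
  Matrix.of fun v w => kz (cP v) (cQ v) (cP w) (cQ w)

theorem det_kmat (n : ℕ) : (kmat n).det = (-1) ^ (Fintype.card (Vert n)) * (ko n).det := by
  have h : kmat n = Matrix.diagonal (fun v : Vert n => ds v.1.1) * (- ko n) *
      Matrix.diagonal (fun v : Vert n => ds v.1.1) := by
    ext v w
    rw [Matrix.mul_diagonal, Matrix.diagonal_mul, Matrix.neg_apply]
    simp only [kmat, ko, Matrix.of_apply]
    rw [kf_kz]
    ring
  rw [h, Matrix.det_mul, Matrix.det_mul, Matrix.det_diagonal, Matrix.det_neg]
  have h2 : (∏ v : Vert n, ds v.1.1) * (∏ v : Vert n, ds v.1.1) = 1 := by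
    rw [← Finset.prod_mul_distrib]
    exact Finset.prod_eq_one (fun v _ => ds_sq _)
  linear_combination ((-1) ^ (Fintype.card (Vert n)) * (ko n).det) * h2

end Pool.Agent.Helper929
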