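import Mathlib
import Pool.Agent.Helper929.Coord

set_option autoImplicit false

namespace Pool.Agent.Helper929

open Finset

/-- Inside the triangle. -/
def InW (n : ℕ) (a b : ℤ) : Prop := 1 ≤ a ∧ 1 ≤ b ∧ a + b ≤ n + 1

instance (n : ℕ) (a b : ℤ) : Decidable (InW n a b) := by unfold InW; infer_instance

theorem inW {n : ℕ} (v : Vert n) : InW n (cP v) (cQ v) := by
  obtain ⟨⟨i, j⟩, h1, h2⟩ := v
  simp only [cP, cQ, InW] at *
  omega

/-- The vertex with given coordinates. -/
def mkV {n : ℕ} (a b : ℤ) (h : InW n a b) : Vert n :=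
  ⟨((a + b - 2).toNat, (a - 1).toNat), by unfold InW at h; simp only; omega⟩

theorem cP_mkV {n : ℕ} (a b : ℤ) (h : InW n a b) : cP (mkV a b h) = a := by
  unfold InW at h
  simp only [cP, mkV]
  omega

theorem cQ_mkV {n : ℕ} (a b : ℤ) (h : InW n a b) : cQ (mkV a b h) = b := by
  unfold InW at h
  simp only [cQ, mkV]
  omega

theorem vert_ext {n : ℕ} {v w : Vert n} (h1 : cP v = cP w) (h2 : cQ v = cQ w) : v = w := by
  obtain ⟨⟨i, j⟩, hij, hin⟩ := v
  obtain ⟨⟨k, l⟩, hkl, hkn⟩ := w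
  simp only [cP, cQ] at *
  apply Subtype.ext
  simp only [Prod.mk.injEq]
  omega

/-- Extension of a function on the vertices by zero. -/
noncomputable def ext {n : ℕ} {R : Type*} [AddCommMonoid R] (y : Vert n → R) (a b : ℤ) : R :=
  ∑ w : Vert n, if cP w = a ∧ cQ w = b then y w else 0

theorem ext_self {n : ℕ} {R : Type*} [AddCommMonoid R] (y : Vert n → R) (v : Vert n) :
    ext y (cP v) (cQ v) = y v := by
  unfold ext
  rw [Finset.sum_eq_single v]
  · simp
  · intro w _ hw
    rw [if_neg]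
    rintro ⟨h1, h2⟩
    exact hw (vert_ext h1 h2)
  · intro h
    exact absurd (Finset.mem_univ v) h

theorem ext_out {n : ℕ} {R : Type*} [AddCommMonoid R] (y : Vert n → R) (a b : ℤ)
    (h : ¬ InW n a b) : ext y a b = 0 := by
  unfold ext
  apply Finset.sum_eq_zero
  intro w _
  rw [if_neg]
  rintro ⟨h1, h2⟩
  exact h (h1 ▸ h2 ▸ inW w)

theorem ext_in {n : ℕ} {R : Type*} [AddCommMonoid R] (y : Vert n → R) (a b : ℤ)
    (h : InW n a b) : ext y a b = y (mkV a b h) := by
  have := ext_self y (mkV a b h)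
  rwa [cP_mkV, cQ_mkV] at this

theorem ext_fun {n : ℕ} {R : Type*} [AddCommMonoid R] (F : ℤ → ℤ → R) (a b : ℤ) :
    ext (fun w : Vert n => F (cP w) (cQ w)) a b = if InW n a b then F a b else 0 := by
  split_ifs with h
  · rw [ext_in _ _ _ h, cP_mkV, cQ_mkV]
  · exact ext_out _ _ _ h

theorem kz_sum {n : ℕ} {R : Type*} [CommRing R] (y : Vert n → R) (p q : ℤ) :
    ∑ w : Vert n, ((kz p q (cP w) (cQ w) : ℤ) : R) * y w =
      ext y (p + 1) (q - 1) - ext y (p - 1) (q + 1)
      - ((e p : ℤ) : R) * (ext y p (q + 1) + ext y (p + 1) q - ext y p (q - 1)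
        + ext y (p - 1) q) := by
  unfold ext
  rw [← Finset.sum_sub_distrib, ← Finset.sum_add_distrib, ← Finset.sum_sub_distrib,
    ← Finset.sum_add_distrib, Finset.mul_sum, ← Finset.sum_sub_distrib]
  apply Finset.sum_congr rfl
  intro w _
  unfold kz
  push_cast
  simp only [sub_mul, mul_assoc, add_mul, ite_mul, one_mul, zero_mul]

/-- `(-1)^((p+1)q)`. -/
def e2 (p q : ℤ) : ℤ := if p % 2 = 0 ∧ q % 2 = 1 then -1 else 1

/-- `(-1)^(pq+p)`. -/
def e3 (p q : ℤ) : ℤ := if p % 2 = 1 ∧ q % 2 = 0 then -1 else 1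

/-- Lift to the integers of an element of the kernel modulo 2. -/
def Fc (m : ℤ) (c : ℤ → ℤ) (p q : ℤ) : ℤ := c (m - p - q) - e2 p q * c p - th p * c q

/-- Coefficient on the hypotenuse. -/
def bb (m p : ℤ) : ℤ := if e2 p (m - p) = th p then th p else 0

/-- Half of the image of the lift. -/
def Gc (m : ℤ) (c : ℤ → ℤ) (p q : ℤ) : ℤ :=
  - e p * c (m - p - q - 1) + e3 p q * c (p - 1) - e p * th p * c (q - 1)
    - (if p + q = m - 1 then e p * (bb m p * c p + bb m (p + 1) * c (p + 1)) else 0)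

theorem bb_spec (m p : ℤ) : e2 p (m - p) + th p = 2 * bb m p := by
  unfold bb
  split_ifs with h
  · rw [h]
    ring
  · revert h
    unfold e2 th
    split_ifs <;> simp

theorem Fc_p0 (m : ℤ) (c : ℤ → ℤ) (h0 : c 0 = 0) (hs : ∀ x, c (m - x) = c x) (q : ℤ) :
    Fc m c 0 q = 0 := by
  unfold Fc
  have h1 : m - 0 - q = m - q := by ring
  rw [h1, hs, h0]
  simp [th]

theorem Fc_q0 (m : ℤ) (c : ℤ → ℤ) (h0 : c 0 = 0) (hs : ∀ x, c (m - x) = c x) (p : ℤ) :
    Fc m c p 0 = 0 := by
  unfold Fc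
  have h1 : m - p - 0 = m - p := by ring
  rw [h1, hs, h0]
  simp [e2]

theorem Fc_r0 (m : ℤ) (c : ℤ → ℤ) (h0 : c 0 = 0) (hs : ∀ x, c (m - x) = c x) (p q : ℤ)
    (h : p + q = m) : Fc m c p q = - (2 * bb m p * c p) := by
  have hq : q = m - p := by omega
  subst hq
  unfold Fc
  have h1 : m - p - (m - p) = 0 := by ring
  rw [h1, hs, h0, ← bb_spec]
  ring

theorem Fc_free (m : ℤ) (c : ℤ → ℤ) (p q : ℤ) :
    Fc m c (p + 1) (q - 1) - Fc m c (p - 1) (q + 1)
      - e p * (Fc m c p (q + 1) + Fc m c (p + 1) q - Fc m c p (q - 1) + Fc m c (p - 1) q)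
    = 2 * (- e p * c (m - p - q - 1) + e3 p q * c (p - 1) - e p * th p * c (q - 1)) := by
  unfold Fc
  have a1 : m - (p + 1) - (q - 1) = m - p - q := by ring
  have a2 : m - (p - 1) - (q + 1) = m - p - q := by ring
  have a3 : m - p - (q + 1) = m - p - q - 1 := by ring
  have a4 : m - (p + 1) - q = m - p - q - 1 := by ring
  have a5 : m - p - (q - 1) = m - p - q + 1 := by ring
  have a6 : m - (p - 1) - q = m - p - q + 1 := by ring
  rw [a1, a2, a3, a4, a5, a6]
  have b1 : e2 p (q + 1) = e2 p (q - 1) := by unfold e2; split_ifs <;> omega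
  have b2 : e2 (p + 1) (q - 1) = e p * e2 (p + 1) q := by
    unfold e2 e; split_ifs <;> omega
  have b3 : e2 (p - 1) (q + 1) = e3 p q := by
    unfold e2 e3; split_ifs <;> omega
  have b4 : e p * e2 (p - 1) q = e3 p q := by
    unfold e2 e3 e; split_ifs <;> omega
  have b5 : th (p + 1) = - th (p - 1) := by unfold th; split_ifs <;> omega
  have b6 : th (p - 1) = - (e p * th p) := by unfold th e; split_ifs <;> omega
  rw [b5]
  linear_combination (e p * c p) * b1 - c (p + 1) * b2 + c (p - 1) * b3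
    + c (p - 1) * b4 + (c (q - 1) + c (q + 1)) * b6

theorem ko_Fc {n : ℕ} (c : ℤ → ℤ) (h0 : c 0 = 0) (hs : ∀ x, c ((n : ℤ) + 2 - x) = c x)
    (v : Vert n) :
    ∑ w : Vert n, kz (cP v) (cQ v) (cP w) (cQ w) * Fc (n + 2) c (cP w) (cQ w) =
      2 * Gc (n + 2) c (cP v) (cQ v) := by
  have key := kz_sum (R := ℤ) (fun w : Vert n => Fc (n + 2) c (cP w) (cQ w)) (cP v) (cQ v)
  simp only [Int.cast_id] at key
  rw [key]
  simp only [ext_fun]
  have hW := inW v
  generalize cP v = p at *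
  generalize cQ v = q at *
  obtain ⟨hp, hq, hpq⟩ := hW
  have free := Fc_free (n + 2) c p q
  have g1 : (if InW n (p + 1) (q - 1) then Fc (n + 2) c (p + 1) (q - 1) else 0) =
      Fc (n + 2) c (p + 1) (q - 1) := by
    split_ifs with h
    · rfl
    · unfold InW at h
      have : q - 1 = 0 := by omega
      rw [this, Fc_q0 _ _ h0 hs]
  have g2 : (if InW n (p - 1) (q + 1) then Fc (n + 2) c (p - 1) (q + 1) else 0) =
      Fc (n + 2) c (p - 1) (q + 1) := by
    split_ifs with h
    · rfl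
    · unfold InW at h
      have : p - 1 = 0 := by omega
      rw [this, Fc_p0 _ _ h0 hs]
  have g5 : (if InW n p (q - 1) then Fc (n + 2) c p (q - 1) else 0) =
      Fc (n + 2) c p (q - 1) := by
    split_ifs with h
    · rfl
    · unfold InW at h
      have : q - 1 = 0 := by omega
      rw [this, Fc_q0 _ _ h0 hs]
  have g6 : (if InW n (p - 1) q then Fc (n + 2) c (p - 1) q else 0) =
      Fc (n + 2) c (p - 1) q := by
    split_ifs with h
    · rfl
    · unfold InW at h
      have : p - 1 = 0 := by omega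
      rw [this, Fc_p0 _ _ h0 hs]
  rw [g1, g2, g5, g6]
  unfold Gc
  by_cases hr : p + q = (n : ℤ) + 2 - 1
  · have n1 : ¬ InW n p (q + 1) := by unfold InW; omega
    have n2 : ¬ InW n (p + 1) q := by unfold InW; omega
    rw [if_neg n1, if_neg n2, if_pos hr]
    have r1 := Fc_r0 (n + 2) c h0 hs p (q + 1) (by omega)
    have r2 := Fc_r0 (n + 2) c h0 hs (p + 1) q (by omega)
    linear_combination free + (e p) * r1 + (e p) * r2
  · have n1 : InW n p (q + 1) := by unfold InW; omega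
    have n2 : InW n (p + 1) q := by unfold InW; omega
    rw [if_pos n1, if_pos n2, if_neg hr]
    linear_combination free

end Pool.Agent.Helper929
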