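import Mathlib
import Pool.Agent.Helper929.Lift

set_option autoImplicit false

namespace Pool.Agent.Helper929

open Finset

theorem z2_add_self (a : ZMod 2) : a + a = 0 := by
  revert a
  decide

theorem z2_eq_of_add (a b : ZMod 2) (h : a + b = 0) : a = b := by
  revert a b
  decide

/-- Functions on the closed triangle, vanishing on the border, with vanishing hexagon sums. -/
structure Ker (m : ℤ) (Y : ℤ → ℤ → ZMod 2) : Prop where
  p0 : ∀ q, 0 ≤ q → q ≤ m → Y 0 q = 0
  q0 : ∀ p, 0 ≤ p → p ≤ m → Y p 0 = 0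
  r0 : ∀ p q, 0 ≤ p → 0 ≤ q → p + q = m → Y p q = 0
  hex : ∀ p q, 1 ≤ p → 1 ≤ q → p + q ≤ m - 1 →
    Y (p + 1) (q - 1) + Y (p - 1) (q + 1) + Y p (q + 1) + Y (p + 1) q + Y p (q - 1)
      + Y (p - 1) q = 0

theorem Ker.swap {m : ℤ} {Y : ℤ → ℤ → ZMod 2} (h : Ker m Y) : Ker m (fun p q => Y q p) where
  p0 := h.q0
  q0 := h.p0
  r0 := fun p q h1 h2 h3 => h.r0 q p h2 h1 (by omega)
  hex := fun p q h1 h2 h3 => by
    have := h.hex q p h2 h1 (by omega)
    linear_combination this

theorem Ker.refl {m : ℤ} {Y : ℤ → ℤ → ZMod 2} (h : Ker m Y) :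
    Ker m (fun p q => Y (m - p - q) q) where
  p0 := fun q h1 h2 => h.r0 _ _ (by omega) h1 (by omega)
  q0 := fun p h1 h2 => h.q0 _ (by omega) (by omega)
  r0 := fun p q h1 h2 h3 => by
    have : m - p - q = 0 := by omega
    simp only [this]
    exact h.p0 _ h2 (by omega)
  hex := fun p q h1 h2 h3 => by
    have := h.hex (m - p - q) q (by omega) h2 (by omega)
    have a1 : m - (p + 1) - (q - 1) = m - p - q := by ring
    have a2 : m - (p - 1) - (q + 1) = m - p - q := by ring
    have a3 : m - p - (q + 1) = m - p - q - 1 := by ring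
    have a4 : m - (p + 1) - q = m - p - q - 1 := by ring
    have a5 : m - p - (q - 1) = m - p - q + 1 := by ring
    have a6 : m - (p - 1) - q = m - p - q + 1 := by ring
    rw [a1, a2, a3, a4, a5, a6]
    linear_combination this

theorem Ker.add {m : ℤ} {Y Z : ℤ → ℤ → ZMod 2} (h : Ker m Y) (h' : Ker m Z) :
    Ker m (fun p q => Y p q + Z p q) where
  p0 := fun q h1 h2 => by simp only [h.p0 q h1 h2, h'.p0 q h1 h2, add_zero]
  q0 := fun q h1 h2 => by simp only [h.q0 q h1 h2, h'.q0 q h1 h2, add_zero]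
  r0 := fun p q h1 h2 h3 => by simp only [h.r0 p q h1 h2 h3, h'.r0 p q h1 h2 h3, add_zero]
  hex := fun p q h1 h2 h3 => by
    have := h.hex p q h1 h2 h3
    have := h'.hex p q h1 h2 h3
    linear_combination h.hex p q h1 h2 h3 + h'.hex p q h1 h2 h3

theorem Ker.l1 {m : ℤ} {Y : ℤ → ℤ → ZMod 2} (h : Ker m Y) (q : ℕ) (hq : (q : ℤ) ≤ m - 2) :
    Y 1 q = Y (m - 1 - q) q := by
  induction q with
  | zero =>
    push_cast at *
    rw [h.q0 _ (by omega) (by omega), h.q0 _ (by omega) (by omega)]
  | succ q ih =>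
    have ih' := ih (by push_cast at hq; omega)
    have hw : ∀ k : ℕ, (k : ℤ) + 1 ≤ m - (q + 1) →
        Y (k + 1) (q + 1) + Y (k + 1) q + Y k (q + 2) + Y k (q + 1) =
        Y 1 (q + 1) + Y 1 q + Y 0 (q + 2) + Y 0 (q + 1) := by
      intro k
      induction k with
      | zero => intro _; simp
      | succ k ihk =>
        intro hk
        push_cast at hk ⊢
        have h1 := ihk (by omega)
        rw [← h1]
        apply z2_eq_of_add
        have h2 := h.hex (k + 1) (q + 1) (by omega) (by omega) (by omega)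
        have a1 : (k : ℤ) + 1 - 1 = k := by ring
        have a2 : (q : ℤ) + 1 - 1 = q := by ring
        have a3 : (q : ℤ) + 1 + 1 = q + 2 := by ring
        rw [a1, a2, a3] at h2
        linear_combination h2 + z2_add_self (Y (k + 1) (q + 1))
    push_cast at hq ⊢
    obtain ⟨k, hk⟩ : ∃ k : ℕ, (k : ℤ) = m - 2 - q := ⟨(m - 2 - q).toNat, by omega⟩
    have h3 := hw k (by omega)
    have b1 : (k : ℤ) + 1 = m - 1 - q := by omega
    have b2 : (k : ℤ) = m - 1 - (q + 1) := by omega
    rw [b1, b2, h.r0 (m - 1 - q) (q + 1) (by omega) (by omega) (by omega),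
      h.r0 (m - 1 - (q + 1)) (q + 2) (by omega) (by omega) (by omega),
      h.p0 (q + 2) (by omega) (by omega), h.p0 (q + 1) (by omega) (by omega), ← ih'] at h3
    linear_combination - h3

theorem Ker.l1' {m : ℤ} {Y : ℤ → ℤ → ZMod 2} (h : Ker m Y) (q : ℤ) (h0 : 0 ≤ q)
    (hq : q ≤ m - 2) : Y 1 q = Y (m - 1 - q) q := by
  obtain ⟨k, rfl⟩ := Int.eq_ofNat_of_zero_le h0
  exact h.l1 k hq

theorem Ker.sym {m : ℤ} {Y : ℤ → ℤ → ZMod 2} (h : Ker m Y) (q : ℤ) (h0 : 0 ≤ q)
    (hq : q ≤ m - 1) : Y 1 q = Y 1 (m - 1 - q) := by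
  by_cases h1 : q = 0
  · subst h1
    rw [h.q0 1 (by omega) (by omega), h.r0 _ _ (by omega) (by omega) (by omega)]
  by_cases h2 : q = m - 1
  · subst h2
    have : m - 1 - (m - 1) = 0 := by ring
    rw [this, h.q0 1 (by omega) (by omega), h.r0 _ _ (by omega) (by omega) (by omega)]
  have e1 := h.l1' q h0 (by omega)
  have e2 := h.swap.l1' (m - 1 - q) (by omega) (by omega)
  have e3 := h.refl.swap.l1' q (by omega) (by omega)
  have a1 : m - 1 - (m - 1 - q) = q := by ring
  have a2 : m - q - 1 = m - 1 - q := by ring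
  have a3 : m - q - (m - 1 - q) = 1 := by ring
  rw [a1] at e2
  rw [a2, a3] at e3
  rw [e1, ← e2, e3]

theorem Ker.vanish {m : ℤ} {Y : ℤ → ℤ → ZMod 2} (h : Ker m Y)
    (h1 : ∀ q, 0 ≤ q → q ≤ m - 1 → Y 1 q = 0) (p q : ℕ) (hpq : (p : ℤ) + q ≤ m) :
    Y p q = 0 := by
  induction p using Nat.strong_induction_on generalizing q with
  | _ p ih =>
    rcases Nat.lt_or_ge p 2 with hp | hp
    · rcases (show p = 0 ∨ p = 1 by omega) with rfl | rfl
      · exact h.p0 _ (by omega) (by push_cast at hpq; omega)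
      · exact h1 _ (by omega) (by push_cast at hpq; omega)
    · obtain ⟨p', rfl⟩ : ∃ p' : ℕ, p = p' + 1 + 1 := ⟨p - 2, by omega⟩
      induction q with
      | zero => exact h.q0 _ (by omega) (by push_cast at *; omega)
      | succ q ihq =>
        have h2 := h.hex (p' + 1) (q + 1) (by omega) (by omega) (by push_cast at hpq; omega)
        have c1 := ih p' (by omega) (q + 2) (by push_cast at *; omega)
        have c2 := ih (p' + 1) (by omega) (q + 2) (by push_cast at *; omega)
        have c3 := ih (p' + 1) (by omega) q (by push_cast at *; omega)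
        have c4 := ih p' (by omega) (q + 1) (by push_cast at *; omega)
        have c5 := ihq (by push_cast at *; omega)
        push_cast at *
        have a1 : (p' : ℤ) + 1 - 1 = p' := by ring
        have a2 : (q : ℤ) + 1 - 1 = q := by ring
        have a3 : (q : ℤ) + 1 + 1 = q + 2 := by ring
        rw [a1, a2, a3, c1, c2, c3, c4, c5] at h2
        linear_combination h2

/-- Kernel elements from symmetric functions. -/
theorem ker_of {m : ℤ} (c : ℤ → ZMod 2) (h0 : c 0 = 0)
    (hs : ∀ x, 0 ≤ x → x ≤ m → c (m - x) = c x) :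
    Ker m (fun p q => c p + c q + c (m - p - q)) where
  p0 := fun q h1 h2 => by
    have : m - 0 - q = m - q := by ring
    rw [this, hs q h1 h2, h0]
    linear_combination z2_add_self (c q)
  q0 := fun p h1 h2 => by
    have : m - p - 0 = m - p := by ring
    rw [this, hs p h1 h2, h0]
    linear_combination z2_add_self (c p)
  r0 := fun p q h1 h2 h3 => by
    have e1 : m - p - q = 0 := by omega
    have e2 : q = m - p := by omega
    rw [e1, h0, e2, hs p h1 (by omega)]
    linear_combination z2_add_self (c p)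
  hex := fun p q h1 h2 h3 => by
    have a1 : m - (p + 1) - (q - 1) = m - p - q := by ring
    have a2 : m - (p - 1) - (q + 1) = m - p - q := by ring
    have a3 : m - p - (q + 1) = m - p - q - 1 := by ring
    have a4 : m - (p + 1) - q = m - p - q - 1 := by ring
    have a5 : m - p - (q - 1) = m - p - q + 1 := by ring
    have a6 : m - (p - 1) - q = m - p - q + 1 := by ring
    rw [a1, a2, a3, a4, a5, a6]
    linear_combination z2_add_self (c (p + 1)) + z2_add_self (c (p - 1)) + z2_add_self (c p)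
      + z2_add_self (c (q + 1)) + z2_add_self (c (q - 1)) + z2_add_self (c q)
      + z2_add_self (c (m - p - q)) + z2_add_self (c (m - p - q - 1))
      + z2_add_self (c (m - p - q + 1))

theorem Ker.rep {m : ℤ} (hm : 2 ≤ m) {Y : ℤ → ℤ → ZMod 2} (h : Ker m Y) :
    ∃ c : ℤ → ZMod 2, c 0 = 0 ∧ (∀ x, 0 ≤ x → x ≤ m → c (m - x) = c x) ∧
      (m % 2 = 0 → c 1 = 0) ∧
      ∀ p q, 0 ≤ p → 0 ≤ q → p + q ≤ m → Y p q = c p + c q + c (m - p - q) := by
  obtain ⟨M, rfl⟩ := Int.eq_ofNat_of_zero_le (show 0 ≤ m by omega)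
  obtain ⟨g, hg, hg'⟩ : ∃ g : ZMod 2, (M % 2 = 0 → g = 0) ∧
      (M % 2 = 1 → g = Y 1 ((M / 2 : ℕ) : ℤ)) := by
    rcases Nat.mod_two_eq_zero_or_one M with h1 | h1
    · exact ⟨0, fun _ => rfl, fun h2 => by omega⟩
    · exact ⟨_, fun h2 => by omega, fun _ => rfl⟩
  let f : ℕ → ZMod 2 := fun i => Y 1 (i : ℤ) + g
  have f_sym : ∀ i, i < M → f (M - 1 - i) = f i := by
    intro i hi
    simp only [f]
    have := h.sym (i : ℤ) (by omega) (by omega)
    rw [this]
    congr 3
    omega
  let c : ℤ → ZMod 2 := fun x => ∑ i ∈ range x.toNat, f i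
  have c0 : c 0 = 0 := by simp [c]
  have csucc : ∀ k : ℕ, c ((k : ℤ) + 1) = c k + f k := by
    intro k
    simp only [c]
    have h1 : ((k : ℤ) + 1).toNat = k + 1 := by omega
    have h2 : (k : ℤ).toNat = k := by omega
    rw [h1, h2, Finset.sum_range_succ]
  have cM : c M = 0 := by
    simp only [c]
    have h2 : (M : ℤ).toNat = M := by omega
    rw [h2]
    apply Finset.sum_involution (fun i _ => M - 1 - i)
    · intro i hi
      rw [Finset.mem_range] at hi
      rw [f_sym i hi]
      exact z2_add_self _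
    · intro i hi hne heq
      rw [Finset.mem_range] at hi
      apply hne
      have hM : M % 2 = 1 := by omega
      have hi2 : i = M / 2 := by omega
      simp only [f]
      rw [hg' hM, hi2]
      exact z2_add_self _
    · intro i hi
      rw [Finset.mem_range] at hi ⊢
      omega
    · intro i hi
      rw [Finset.mem_range] at hi
      omega
  have csym : ∀ k : ℕ, k ≤ M → c (M - k) = c k := by
    intro k
    induction k with
    | zero =>
      intro _
      push_cast
      rw [sub_zero, cM, c0]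
    | succ k ih =>
      intro hk
      have h1 := ih (by omega)
      have h2 := csucc (M - 1 - k)
      have e1 : ((M - 1 - k : ℕ) : ℤ) + 1 = (M : ℤ) - k := by omega
      have e2 : ((M - 1 - k : ℕ) : ℤ) = (M : ℤ) - ((k + 1 : ℕ) : ℤ) := by omega
      rw [e1, e2, f_sym k (by omega), h1] at h2
      have h3 := csucc k
      push_cast at h2 h3 ⊢
      rw [h3]
      linear_combination - h2 - z2_add_self (f k)
  have cs : ∀ x : ℤ, 0 ≤ x → x ≤ (M : ℤ) → c ((M : ℤ) - x) = c x := by
    intro x h1 h2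
    obtain ⟨k, rfl⟩ := Int.eq_ofNat_of_zero_le h1
    exact csym k (by omega)
  have c1 : c 1 = g := by
    have := csucc 0
    rw [Nat.cast_zero, zero_add] at this
    rw [c0, zero_add] at this
    rw [this]
    simp only [f]
    push_cast
    rw [h.q0 1 (by omega) (by omega)]
    ring
  refine ⟨c, c0, cs, fun h1 => ?_, ?_⟩
  · rw [c1]
    exact hg (by omega)
  · intro p q hp hq hpq
    obtain ⟨p, rfl⟩ := Int.eq_ofNat_of_zero_le hp
    obtain ⟨q, rfl⟩ := Int.eq_ofNat_of_zero_le hq
    have hK := h.add (ker_of c c0 cs)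
    apply z2_eq_of_add
    apply hK.vanish _ p q hpq
    intro q hq1 hq2
    obtain ⟨q, rfl⟩ := Int.eq_ofNat_of_zero_le hq1
    have e1 : (M : ℤ) - 1 - q = M - (q + 1) := by ring
    rw [e1, cs (q + 1) (by omega) (by omega), csucc q, c1]
    simp only [f]
    linear_combination z2_add_self (Y 1 q) + z2_add_self g + z2_add_self (c q)

end Pool.Agent.Helper929
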