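import Mathlib
import Pool.Agent.Helper929.Kernel

set_option autoImplicit false

namespace Pool.Agent.Helper929

open Finset

theorem sum_vert {n : ℕ} {R : Type*} [AddCommMonoid R] (F : ℕ → ℕ → R) :
    ∑ w : Vert n, F w.1.1 w.1.2 = ∑ i ∈ range n, ∑ j ∈ range (i + 1), F i j := by
  rw [Finset.sum_sigma' (range n) (fun i => range (i + 1)) F]
  apply Finset.sum_bij (fun (w : Vert n) _ => (⟨w.1.1, w.1.2⟩ : (_ : ℕ) × ℕ))
  · intro w _
    obtain ⟨⟨i, j⟩, hij, hin⟩ := w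
    simp only [Finset.mem_sigma, Finset.mem_range] at *
    omega
  · intro v _ w _ h
    obtain ⟨⟨i, j⟩, hij, hin⟩ := v
    obtain ⟨⟨k, l⟩, hkl, hkn⟩ := w
    simp only [Sigma.mk.injEq, heq_eq_eq] at h
    obtain ⟨h1, h2⟩ := h
    subst h1
    subst h2
    rfl
  · rintro ⟨i, j⟩ h
    simp only [Finset.mem_sigma, Finset.mem_range] at h
    exact ⟨⟨(i, j), by simp only; omega⟩, Finset.mem_univ _, rfl⟩
  · intro w _
    rfl

/-- Exchange of the two coordinates. -/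
def swapV {n : ℕ} (v : Vert n) : Vert n :=
  mkV (cQ v) (cP v) (by have := inW v; unfold InW at *; omega)

/-- Exchange of the first and third coordinates. -/
def reflV {n : ℕ} (v : Vert n) : Vert n :=
  mkV ((n : ℤ) + 2 - cP v - cQ v) (cQ v) (by have := inW v; unfold InW at *; omega)

theorem swapV_inv {n : ℕ} : Function.Involutive (swapV (n := n)) := by
  intro v
  apply vert_ext
  · unfold swapV
    rw [cP_mkV, cQ_mkV]
  · unfold swapV
    rw [cQ_mkV, cP_mkV]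

theorem reflV_inv {n : ℕ} : Function.Involutive (reflV (n := n)) := by
  intro v
  apply vert_ext
  · unfold reflV
    rw [cP_mkV, cQ_mkV, cP_mkV]
    ring
  · unfold reflV
    rw [cQ_mkV, cQ_mkV]

theorem sum_swap {n : ℕ} {R : Type*} [AddCommMonoid R] (H : ℤ → ℤ → R) :
    ∑ w : Vert n, H (cQ w) (cP w) = ∑ w : Vert n, H (cP w) (cQ w) := by
  rw [← Equiv.sum_comp (Function.Involutive.toPerm _ (swapV_inv (n := n)))
    (fun w => H (cP w) (cQ w))]
  apply Finset.sum_congr rfl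
  intro w _
  simp only [Function.Involutive.coe_toPerm, swapV]
  rw [cP_mkV, cQ_mkV]

theorem sum_refl {n : ℕ} {R : Type*} [AddCommMonoid R] (H : ℤ → ℤ → R) :
    ∑ w : Vert n, H ((n : ℤ) + 2 - cP w - cQ w) (cQ w) = ∑ w : Vert n, H (cP w) (cQ w) := by
  rw [← Equiv.sum_comp (Function.Involutive.toPerm _ (reflV_inv (n := n)))
    (fun w => H (cP w) (cQ w))]
  apply Finset.sum_congr rfl
  intro w _
  simp only [Function.Involutive.coe_toPerm, reflV]
  rw [cP_mkV, cQ_mkV]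

/-- The local coefficient. -/
def Lc (n : ℕ) (b c : ℤ → ZMod 2) (a : ℤ) : ZMod 2 :=
  (((n : ℤ) + a : ℤ) : ZMod 2) * c (a + 1) + b a * (c (a - 1) + c (a + 1))

theorem sum_T {n : ℕ} (d c : ℤ → ZMod 2) (hd0 : d 0 = 0) (h0 : c 0 = 0)
    (hs : ∀ x, 0 ≤ x → x ≤ (n : ℤ) + 2 → c ((n : ℤ) + 2 - x) = c x) :
    ∑ w : Vert n, d ((n : ℤ) + 2 - cP w - cQ w - 1) * c ((n : ℤ) + 2 - cP w - cQ w) =
      ∑ j ∈ range (n + 1), d ((j : ℤ) + 1) * ((((n : ℤ) + (j + 1) : ℤ) : ZMod 2) * c (j + 1 + 1)) := by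
  have h1 : ∑ w : Vert n, d ((n : ℤ) + 2 - cP w - cQ w - 1) * c ((n : ℤ) + 2 - cP w - cQ w) =
      ∑ i ∈ range n, ∑ j ∈ range (i + 1), d ((n : ℤ) - i - 1) * c ((n : ℤ) - i) := by
    rw [← sum_vert (n := n) (fun i _ => d ((n : ℤ) - i - 1) * c ((n : ℤ) - i))]
    apply Finset.sum_congr rfl
    intro w _
    have e1 : (n : ℤ) + 2 - cP w - cQ w = (n : ℤ) - w.1.1 := by
      unfold cP cQ
      ring
    rw [e1]
  rw [h1]
  let g : ℕ → ZMod 2 := fun a => ((((n : ℤ) + a : ℤ) : ZMod 2)) * (d a * c (a + 1))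
  have h2 : ∑ i ∈ range n, ∑ j ∈ range (i + 1), d ((n : ℤ) - i - 1) * c ((n : ℤ) - i) =
      ∑ i ∈ range n, g (n - 1 - i) := by
    apply Finset.sum_congr rfl
    intro i hi
    rw [Finset.mem_range] at hi
    rw [Finset.sum_const, Finset.card_range, nsmul_eq_mul]
    simp only [g]
    have e1 : ((n - 1 - i : ℕ) : ℤ) = (n : ℤ) - i - 1 := by omega
    have e2 : (n : ℤ) - i - 1 + 1 = (n : ℤ) - i := by ring
    have e3 : ((n : ℤ) + ((n : ℤ) - i - 1)) = 2 * ((n : ℤ) - i - 1) + (i + 1 : ℕ) := by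
      push_cast
      ring
    have e4 : (2 : ZMod 2) = 0 := by decide
    rw [e1, e2, e3]
    push_cast
    rw [e4]
    ring
  rw [h2, Finset.sum_range_reflect]
  have h3 : ∑ i ∈ range (n + 2), g i = ∑ i ∈ range n, g i := by
    rw [Finset.sum_range_succ, Finset.sum_range_succ]
    have e1 : g n = 0 := by
      simp only [g]
      have e4 : (2 : ZMod 2) = 0 := by decide
      have e5 : (((n : ℤ) + (n : ℕ) : ℤ) : ZMod 2) = 0 := by
        push_cast
        linear_combination (n : ZMod 2) * e4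
      rw [e5]
      ring
    have e2 : g (n + 1) = 0 := by
      simp only [g]
      have e6 : ((n + 1 : ℕ) : ℤ) + 1 = (n : ℤ) + 2 - 0 := by
        push_cast
        ring
      rw [e6, hs 0 (le_refl _) (by omega), h0]
      ring
    rw [e1, e2]
    ring
  rw [← h3, Finset.sum_range_succ']
  have e0 : g 0 = 0 := by
    simp only [g]
    push_cast
    rw [hd0]
    ring
  rw [e0, add_zero]
  apply Finset.sum_congr rfl
  intro j _
  simp only [g]
  push_cast
  ring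

theorem sum_S2 {n : ℕ} (hn : 1 ≤ n) (A c : ℤ → ZMod 2) (h0 : c 0 = 0)
    (hs : ∀ x, 0 ≤ x → x ≤ (n : ℤ) + 2 → c ((n : ℤ) + 2 - x) = c x) :
    ∑ w : Vert n, (if cP w + cQ w = (n : ℤ) + 2 - 1 then A (cP w) + A (cP w + 1) else 0) *
        (c (cP w) + c (cQ w) + c ((n : ℤ) + 2 - cP w - cQ w)) =
      ∑ j ∈ range (n + 1), A ((j : ℤ) + 1) * (c j + c (j + 1 + 1)) := by
  have h1 : ∑ w : Vert n, (if cP w + cQ w = (n : ℤ) + 2 - 1 then A (cP w) + A (cP w + 1) else 0) *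
        (c (cP w) + c (cQ w) + c ((n : ℤ) + 2 - cP w - cQ w)) =
      ∑ i ∈ range n, ∑ j ∈ range (i + 1),
        (if i + 1 = n then A ((j : ℤ) + 1) + A ((j : ℤ) + 1 + 1) else 0) *
          (c (j + 1) + c ((i : ℤ) - j + 1) + c ((n : ℤ) - i)) := by
    rw [← sum_vert (n := n) (fun i j =>
        (if i + 1 = n then A ((j : ℤ) + 1) + A ((j : ℤ) + 1 + 1) else 0) *
          (c (j + 1) + c ((i : ℤ) - j + 1) + c ((n : ℤ) - i)))]
    apply Finset.sum_congr rfl
    intro w _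
    have e1 : (n : ℤ) + 2 - cP w - cQ w = (n : ℤ) - w.1.1 := by
      unfold cP cQ
      ring
    rw [e1]
    unfold cP cQ
    congr 1
    apply if_congr _ rfl rfl
    omega
  rw [h1, Finset.sum_eq_single (n - 1)]
  rotate_left
  · intro i _ hi
    apply Finset.sum_eq_zero
    intro j _
    rw [if_neg (by omega), zero_mul]
  · intro h
    exfalso
    apply h
    rw [Finset.mem_range]
    omega
  have e1 : n - 1 + 1 = n := by omega
  rw [e1]
  let u : ℕ → ZMod 2 := fun j => c j + c (j + 1) + c 1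
  have h2 : ∑ j ∈ range n, (if n = n then A ((j : ℤ) + 1) + A ((j : ℤ) + 1 + 1) else 0) *
          (c (j + 1) + c (((n - 1 : ℕ) : ℤ) - j + 1) + c ((n : ℤ) - ((n - 1 : ℕ) : ℤ))) =
      ∑ j ∈ range n, (A ((j : ℤ) + 1) * u (j + 1) + A (((j + 1 : ℕ) : ℤ) + 1) * u (j + 1)) := by
    apply Finset.sum_congr rfl
    intro j hj
    rw [Finset.mem_range] at hj
    rw [if_pos rfl]
    have e2 : ((n - 1 : ℕ) : ℤ) - j + 1 = (n : ℤ) + 2 - (j + 1 + 1) := by omega
    have e3 : (n : ℤ) - ((n - 1 : ℕ) : ℤ) = 1 := by omega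
    rw [e2, e3, hs _ (by omega) (by omega)]
    simp only [u]
    push_cast
    ring
  rw [h2, Finset.sum_add_distrib]
  have h3 : ∑ j ∈ range (n + 1), A ((j : ℤ) + 1) * u (j + 1) =
      ∑ j ∈ range n, A ((j : ℤ) + 1) * u (j + 1) := by
    rw [Finset.sum_range_succ]
    have e2 : u (n + 1) = 0 := by
      simp only [u]
      have e3 : ((n + 1 : ℕ) : ℤ) = (n : ℤ) + 2 - 1 := by push_cast; ring
      have e4 : ((n + 1 : ℕ) : ℤ) + 1 = (n : ℤ) + 2 - 0 := by push_cast; ring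
      rw [e4, e3, hs 1 (by omega) (by omega), hs 0 (by omega) (by omega), h0]
      linear_combination z2_add_self (c 1)
    rw [e2]
    ring
  have h4 : ∑ j ∈ range (n + 1), A ((j : ℤ) + 1) * u j =
      ∑ j ∈ range n, A (((j + 1 : ℕ) : ℤ) + 1) * u (j + 1) := by
    rw [Finset.sum_range_succ']
    have e2 : u 0 = 0 := by
      simp only [u]
      push_cast
      rw [h0, zero_add]
      exact z2_add_self _
    rw [e2]
    ring
  rw [← h3, ← h4, ← Finset.sum_add_distrib]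
  apply Finset.sum_congr rfl
  intro j _
  simp only [u]
  push_cast
  linear_combination A ((j : ℤ) + 1) * (z2_add_self (c (j + 1)) + z2_add_self (c 1))

theorem pairing {n : ℕ} (hn : 1 ≤ n) (b d c : ℤ → ZMod 2) (hd0 : d 0 = 0) (h0 : c 0 = 0)
    (hs : ∀ x, 0 ≤ x → x ≤ (n : ℤ) + 2 → c ((n : ℤ) + 2 - x) = c x) :
    ∑ w : Vert n, (d ((n : ℤ) + 2 - cP w - cQ w - 1) + d (cP w - 1) + d (cQ w - 1)
        + (if cP w + cQ w = (n : ℤ) + 2 - 1 then b (cP w) * d (cP w)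
            + b (cP w + 1) * d (cP w + 1) else 0)) *
        (c (cP w) + c (cQ w) + c ((n : ℤ) + 2 - cP w - cQ w)) =
      ∑ j ∈ range (n + 1), d ((j : ℤ) + 1) * Lc n b c (j + 1) := by
  have hP : ∑ w : Vert n, d (cP w - 1) * (c (cP w) + c (cQ w) + c ((n : ℤ) + 2 - cP w - cQ w)) =
      ∑ w : Vert n, d ((n : ℤ) + 2 - cP w - cQ w - 1) *
        (c (cP w) + c (cQ w) + c ((n : ℤ) + 2 - cP w - cQ w)) := by
    rw [← sum_refl (fun p q => d (p - 1) * (c p + c q + c ((n : ℤ) + 2 - p - q)))]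
    apply Finset.sum_congr rfl
    intro w _
    have e1 : (n : ℤ) + 2 - ((n : ℤ) + 2 - cP w - cQ w) - cQ w = cP w := by ring
    rw [e1]
    ring
  have hQ : ∑ w : Vert n, d (cQ w - 1) * (c (cP w) + c (cQ w) + c ((n : ℤ) + 2 - cP w - cQ w)) =
      ∑ w : Vert n, d (cP w - 1) *
        (c (cP w) + c (cQ w) + c ((n : ℤ) + 2 - cP w - cQ w)) := by
    rw [← sum_swap (fun p q => d (p - 1) * (c p + c q + c ((n : ℤ) + 2 - p - q)))]
    apply Finset.sum_congr rfl
    intro w _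
    have e1 : (n : ℤ) + 2 - cQ w - cP w = (n : ℤ) + 2 - cP w - cQ w := by ring
    rw [e1]
    ring
  have hPQ : ∑ w : Vert n, d ((n : ℤ) + 2 - cP w - cQ w - 1) * c (cQ w) =
      ∑ w : Vert n, d ((n : ℤ) + 2 - cP w - cQ w - 1) * c (cP w) := by
    rw [← sum_swap (fun p q => d ((n : ℤ) + 2 - p - q - 1) * c p)]
    apply Finset.sum_congr rfl
    intro w _
    have e1 : (n : ℤ) + 2 - cQ w - cP w = (n : ℤ) + 2 - cP w - cQ w := by ring
    rw [e1]
  have hT := sum_T d c hd0 h0 hs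
  have hS := sum_S2 hn (fun x => b x * d x) c h0 hs
  have hR : ∑ w : Vert n, d ((n : ℤ) + 2 - cP w - cQ w - 1) *
        (c (cP w) + c (cQ w) + c ((n : ℤ) + 2 - cP w - cQ w)) =
      ∑ w : Vert n, d ((n : ℤ) + 2 - cP w - cQ w - 1) * c ((n : ℤ) + 2 - cP w - cQ w) := by
    simp only [mul_add, Finset.sum_add_distrib]
    rw [hPQ]
    linear_combination z2_add_self (∑ w : Vert n, d ((n : ℤ) + 2 - cP w - cQ w - 1) * c (cP w))
  simp only [add_mul, Finset.sum_add_distrib]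
  have hexp : ∑ j ∈ range (n + 1), d ((j : ℤ) + 1) * Lc n b c (j + 1) =
      ∑ j ∈ range (n + 1), d ((j : ℤ) + 1) *
        ((((n : ℤ) + (j + 1) : ℤ) : ZMod 2) * c (j + 1 + 1)) +
      ∑ j ∈ range (n + 1), b ((j : ℤ) + 1) * d ((j : ℤ) + 1) * (c j + c (j + 1 + 1)) := by
    rw [← Finset.sum_add_distrib]
    apply Finset.sum_congr rfl
    intro j _
    unfold Lc
    have e1 : (j : ℤ) + 1 - 1 = j := by ring
    rw [e1]
    ring
  rw [hexp, ← hS, ← hT, ← hR, hQ, hP]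
  linear_combination z2_add_self (∑ w : Vert n, d ((n : ℤ) + 2 - cP w - cQ w - 1) *
        (c (cP w) + c (cQ w) + c ((n : ℤ) + 2 - cP w - cQ w)))

end Pool.Agent.Helper929
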