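import Mathlib
import Pool.Agent.Helper929.Pair

set_option autoImplicit false

namespace Pool.Agent.Helper929

open Finset

/-- Indicator of a symmetric interval. -/
def It (m t x : ℤ) : ℤ := if t ≤ x ∧ x ≤ m - t then 1 else 0

theorem it_sym (m t x : ℤ) : It m t (m - x) = It m t x := by
  unfold It
  apply if_congr _ rfl rfl
  omega

theorem it_zero (m t : ℤ) (h : 1 ≤ t) : It m t 0 = 0 := by
  unfold It
  rw [if_neg]
  omega

/-- Reduction modulo 2 of the coefficient on the hypotenuse. -/
def bz (m p : ℤ) : ZMod 2 := if e2 p (m - p) = th p then 1 else 0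

theorem cast_even (x : ℤ) (h : x % 2 = 0) : (x : ZMod 2) = 0 := by
  rw [ZMod.intCast_zmod_eq_zero_iff_dvd]
  exact Int.dvd_of_emod_eq_zero h

theorem cast_odd (x : ℤ) (h : x % 2 = 1) : (x : ZMod 2) = 1 := by
  have h1 := cast_even (x - 1) (by omega)
  push_cast at h1
  linear_combination h1

theorem sum_pick {n : ℕ} (F : ℤ → ZMod 2) (t : ℤ) (h1 : 1 ≤ t) (h2 : t ≤ n + 1) :
    ∑ j ∈ range (n + 1), (if (j : ℤ) + 1 = t then F (j + 1) else 0) = F t := by
  obtain ⟨s, hs⟩ : ∃ s : ℕ, (s : ℤ) + 1 = t := ⟨(t - 1).toNat, by omega⟩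
  rw [Finset.sum_eq_single s]
  · rw [if_pos hs, hs]
  · intro j _ hj
    rw [if_neg]
    intro h
    apply hj
    omega
  · intro h
    exfalso
    apply h
    rw [Finset.mem_range]
    omega

theorem c_zero (k : ℕ) (hk : 1 ≤ k) (n : ℕ) (δ : ℤ) (hδ : δ = 0 ∨ δ = 1)
    (hn : (n : ℤ) = 4 * k - 1 + δ) (c : ℤ → ZMod 2) (h0 : c 0 = 0)
    (hs : ∀ x, 0 ≤ x → x ≤ (n : ℤ) + 2 → c ((n : ℤ) + 2 - x) = c x)
    (h1 : δ = 1 → c 1 = 0)
    (hβ : ∀ t : ℤ, 1 + δ ≤ t → t ≤ 2 * k + δ →
      ∑ j ∈ range (n + 1), ((It (n + 2) t (j + 1) : ℤ) : ZMod 2)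
        * Lc n (bz (n + 2)) c (j + 1) = 0) :
    ∀ x : ℤ, 0 ≤ x → x ≤ n + 2 → c x = 0 := by
  have hβ' : ∀ t : ℤ, 1 + δ ≤ t → t ≤ 2 * k + 1 →
      ∑ j ∈ range (n + 1), ((It (n + 2) t (j + 1) : ℤ) : ZMod 2)
        * Lc n (bz (n + 2)) c (j + 1) = 0 := by
    intro t ht1 ht2
    by_cases ht3 : t ≤ 2 * k + δ
    · exact hβ t ht1 ht3
    · apply Finset.sum_eq_zero
      intro j _
      unfold It
      rw [if_neg (by omega)]
      push_cast
      ring
  have hL : ∀ t : ℤ, 1 + δ ≤ t → t ≤ 2 * k →
      Lc n (bz (n + 2)) c t + Lc n (bz (n + 2)) c ((n : ℤ) + 2 - t) = 0 := by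
    intro t ht1 ht2
    have e1 := hβ' t ht1 (by omega)
    have e2 := hβ' (t + 1) (by omega) (by omega)
    have e3 : ∑ j ∈ range (n + 1), ((if (j : ℤ) + 1 = t then Lc n (bz (n + 2)) c (j + 1) else 0)
        + (if (j : ℤ) + 1 = (n : ℤ) + 2 - t then Lc n (bz (n + 2)) c (j + 1) else 0)) =
        ∑ j ∈ range (n + 1), ((It (n + 2) t (j + 1) : ℤ) : ZMod 2)
          * Lc n (bz (n + 2)) c (j + 1) +
        ∑ j ∈ range (n + 1), ((It (n + 2) (t + 1) (j + 1) : ℤ) : ZMod 2)
          * Lc n (bz (n + 2)) c (j + 1) := by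
      rw [← Finset.sum_add_distrib]
      apply Finset.sum_congr rfl
      intro j _
      unfold It
      by_cases c1 : (j : ℤ) + 1 = t
      · rw [if_pos c1, if_neg (by omega), if_pos (by omega), if_neg (by omega)]
        push_cast
        ring
      by_cases c2 : (j : ℤ) + 1 = (n : ℤ) + 2 - t
      · rw [if_neg c1, if_pos c2, if_pos (by omega), if_neg (by omega)]
        push_cast
        ring
      rw [if_neg c1, if_neg c2]
      by_cases c3 : t ≤ (j : ℤ) + 1 ∧ (j : ℤ) + 1 ≤ (n : ℤ) + 2 - t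
      · rw [if_pos c3, if_pos (by omega)]
        push_cast
        linear_combination - z2_add_self (Lc n (bz (n + 2)) c (j + 1))
      · rw [if_neg c3, if_neg (by omega)]
        push_cast
        ring
    rw [e1, e2, Finset.sum_add_distrib, sum_pick _ t (by omega) (by omega),
      sum_pick _ ((n : ℤ) + 2 - t) (by omega) (by omega)] at e3
    rw [e3, add_zero]
  have hsm : ∀ t : ℤ, 1 ≤ t → t ≤ 2 * k →
      c ((n : ℤ) + 2 - t + 1) = c (t - 1) ∧ c ((n : ℤ) + 2 - t - 1) = c (t + 1) := by
    intro t ht1 ht2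
    have e1 := hs (t - 1) (by omega) (by omega)
    have e2 := hs (t + 1) (by omega) (by omega)
    have f1 : (n : ℤ) + 2 - (t - 1) = (n : ℤ) + 2 - t + 1 := by ring
    have f2 : (n : ℤ) + 2 - (t + 1) = (n : ℤ) + 2 - t - 1 := by ring
    rw [f1] at e1
    rw [f2] at e2
    exact ⟨e1, e2⟩
  rcases hδ with rfl | rfl
  · have hodd : ∀ t : ℤ, 1 ≤ t → t ≤ 2 * k → t % 2 = 1 → c (t + 1) = 0 := by
      intro t ht1 ht2 ht3
      have e1 := hL t (by omega) ht2
      obtain ⟨f1, f2⟩ := hsm t ht1 ht2
      unfold Lc at e1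
      rw [f1, f2, cast_even ((n : ℤ) + t) (by omega),
        cast_odd ((n : ℤ) + ((n : ℤ) + 2 - t)) (by omega)] at e1
      have hb : bz ((n : ℤ) + 2) t + bz ((n : ℤ) + 2) ((n : ℤ) + 2 - t) = 1 := by
        rcases (show t % 4 = 1 ∨ t % 4 = 3 by omega) with h | h
        · have b1 : bz ((n : ℤ) + 2) t = 1 := by
            unfold bz e2 th; split_ifs <;> first | rfl | (exfalso; omega)
          have b2 : bz ((n : ℤ) + 2) ((n : ℤ) + 2 - t) = 0 := by
            unfold bz e2 th; split_ifs <;> first | rfl | (exfalso; omega)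
          rw [b1, b2]; rfl
        · have b1 : bz ((n : ℤ) + 2) t = 0 := by
            unfold bz e2 th; split_ifs <;> first | rfl | (exfalso; omega)
          have b2 : bz ((n : ℤ) + 2) ((n : ℤ) + 2 - t) = 1 := by
            unfold bz e2 th; split_ifs <;> first | rfl | (exfalso; omega)
          rw [b1, b2]; rfl
      linear_combination e1 - (c (t - 1) + c (t + 1)) * hb - z2_add_self (c (t - 1))
    have heven : ∀ t : ℤ, 1 ≤ t → t ≤ 2 * k → t % 2 = 0 → c (t - 1) = 0 := by
      intro t ht1 ht2 ht3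
      have e1 := hL t (by omega) ht2
      obtain ⟨f1, f2⟩ := hsm t ht1 ht2
      unfold Lc at e1
      rw [f1, f2, cast_odd ((n : ℤ) + t) (by omega),
        cast_even ((n : ℤ) + ((n : ℤ) + 2 - t)) (by omega)] at e1
      have hb : bz ((n : ℤ) + 2) t + bz ((n : ℤ) + 2) ((n : ℤ) + 2 - t) = 1 := by
        rcases (show t % 4 = 0 ∨ t % 4 = 2 by omega) with h | h
        · have b1 : bz ((n : ℤ) + 2) t = 0 := by
            unfold bz e2 th; split_ifs <;> first | rfl | (exfalso; omega)
          have b2 : bz ((n : ℤ) + 2) ((n : ℤ) + 2 - t) = 1 := by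
            unfold bz e2 th; split_ifs <;> first | rfl | (exfalso; omega)
          rw [b1, b2]; rfl
        · have b1 : bz ((n : ℤ) + 2) t = 1 := by
            unfold bz e2 th; split_ifs <;> first | rfl | (exfalso; omega)
          have b2 : bz ((n : ℤ) + 2) ((n : ℤ) + 2 - t) = 0 := by
            unfold bz e2 th; split_ifs <;> first | rfl | (exfalso; omega)
          rw [b1, b2]; rfl
      linear_combination e1 - (c (t - 1) + c (t + 1)) * hb - z2_add_self (c (t + 1))
    have hsmall : ∀ x : ℤ, 0 ≤ x → x ≤ 2 * k → c x = 0 := by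
      intro x hx1 hx2
      by_cases hx0 : x = 0
      · rw [hx0, h0]
      rcases (show x % 2 = 0 ∨ x % 2 = 1 by omega) with h | h
      · have := hodd (x - 1) (by omega) (by omega) (by omega)
        rwa [sub_add_cancel] at this
      · have := heven (x + 1) (by omega) (by omega) (by omega)
        rwa [add_sub_cancel_right] at this
    intro x hx1 hx2
    by_cases hx3 : x ≤ 2 * k
    · exact hsmall x hx1 hx3
    · rw [← hs x hx1 hx2]
      exact hsmall _ (by omega) (by omega)
  · have hE : ∀ t : ℤ, 2 ≤ t → t ≤ 2 * k → c (t - 1) = c (t + 1) := by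
      intro t ht1 ht2
      have e1 := hL t (by omega) ht2
      obtain ⟨f1, f2⟩ := hsm t (by omega) ht2
      unfold Lc at e1
      rw [f1, f2] at e1
      apply z2_eq_of_add
      rcases (show t % 4 = 0 ∨ t % 4 = 1 ∨ t % 4 = 2 ∨ t % 4 = 3 by omega) with h | h | h | h
      · have b1 : bz ((n : ℤ) + 2) t = 1 := by
          unfold bz e2 th; split_ifs <;> first | rfl | (exfalso; omega)
        have b2 : bz ((n : ℤ) + 2) ((n : ℤ) + 2 - t) = 0 := by
          unfold bz e2 th; split_ifs <;> first | rfl | (exfalso; omega)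
        rw [b1, b2, cast_even ((n : ℤ) + t) (by omega),
          cast_even ((n : ℤ) + ((n : ℤ) + 2 - t)) (by omega)] at e1
        linear_combination e1
      · have b1 : bz ((n : ℤ) + 2) t = 1 := by
          unfold bz e2 th; split_ifs <;> first | rfl | (exfalso; omega)
        have b2 : bz ((n : ℤ) + 2) ((n : ℤ) + 2 - t) = 1 := by
          unfold bz e2 th; split_ifs <;> first | rfl | (exfalso; omega)
        rw [b1, b2, cast_odd ((n : ℤ) + t) (by omega),
          cast_odd ((n : ℤ) + ((n : ℤ) + 2 - t)) (by omega)] at e1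
        linear_combination e1 - z2_add_self (c (t - 1)) - z2_add_self (c (t + 1))
      · have b1 : bz ((n : ℤ) + 2) t = 0 := by
          unfold bz e2 th; split_ifs <;> first | rfl | (exfalso; omega)
        have b2 : bz ((n : ℤ) + 2) ((n : ℤ) + 2 - t) = 1 := by
          unfold bz e2 th; split_ifs <;> first | rfl | (exfalso; omega)
        rw [b1, b2, cast_even ((n : ℤ) + t) (by omega),
          cast_even ((n : ℤ) + ((n : ℤ) + 2 - t)) (by omega)] at e1
        linear_combination e1
      · have b1 : bz ((n : ℤ) + 2) t = 0 := by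
          unfold bz e2 th; split_ifs <;> first | rfl | (exfalso; omega)
        have b2 : bz ((n : ℤ) + 2) ((n : ℤ) + 2 - t) = 0 := by
          unfold bz e2 th; split_ifs <;> first | rfl | (exfalso; omega)
        rw [b1, b2, cast_odd ((n : ℤ) + t) (by omega),
          cast_odd ((n : ℤ) + ((n : ℤ) + 2 - t)) (by omega)] at e1
        linear_combination e1
    have hmid : c (2 * k) = 0 := by
      have e1 := hβ' (2 * k + 1) (by omega) (le_refl _)
      have e2 : ∑ j ∈ range (n + 1), ((It (n + 2) (2 * k + 1) (j + 1) : ℤ) : ZMod 2)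
          * Lc n (bz (n + 2)) c (j + 1) =
          ∑ j ∈ range (n + 1), (if (j : ℤ) + 1 = 2 * k + 1 then
            Lc n (bz (n + 2)) c (j + 1) else 0) := by
        apply Finset.sum_congr rfl
        intro j _
        unfold It
        by_cases c1 : (j : ℤ) + 1 = 2 * k + 1
        · rw [if_pos c1, if_pos (by omega)]
          push_cast
          ring
        · rw [if_neg c1, if_neg (by omega)]
          push_cast
          ring
      rw [e2, sum_pick _ (2 * (k : ℤ) + 1) (by omega) (by omega)] at e1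
      unfold Lc at e1
      have e3 := hs (2 * k) (by omega) (by omega)
      have e4 : (n : ℤ) + 2 - 2 * k = 2 * k + 1 + 1 := by omega
      rw [e4] at e3
      rw [e3, add_sub_cancel_right, cast_odd ((n : ℤ) + (2 * k + 1)) (by omega)] at e1
      linear_combination e1 - bz ((n : ℤ) + 2) (2 * k + 1) * z2_add_self (c (2 * k))
    have hodd : ∀ i : ℕ, i ≤ k → c (2 * i + 1) = 0 := by
      intro i
      induction i with
      | zero =>
        intro _
        push_cast
        exact h1 rfl
      | succ i ih =>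
        intro hi
        have e1 := ih (by omega)
        have e2 := hE (2 * i + 2) (by omega) (by omega)
        have f1 : 2 * (i : ℤ) + 2 - 1 = 2 * i + 1 := by ring
        have f2 : 2 * (i : ℤ) + 2 + 1 = 2 * ((i + 1 : ℕ) : ℤ) + 1 := by push_cast; ring
        rw [f1, f2, e1] at e2
        exact e2.symm
    have heven : ∀ i : ℕ, i < k → c (2 * ((k : ℤ) - i)) = 0 := by
      intro i
      induction i with
      | zero =>
        intro _
        push_cast
        rw [sub_zero]
        exact hmid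
      | succ i ih =>
        intro hi
        have e1 := ih (by omega)
        have e2 := hE (2 * ((k : ℤ) - i) - 1) (by omega) (by omega)
        have f1 : 2 * ((k : ℤ) - i) - 1 - 1 = 2 * ((k : ℤ) - ((i + 1 : ℕ) : ℤ)) := by
          push_cast; ring
        have f2 : 2 * ((k : ℤ) - i) - 1 + 1 = 2 * ((k : ℤ) - i) := by ring
        rw [f1, f2, e1] at e2
        exact e2
    have hsmall : ∀ x : ℤ, 0 ≤ x → x ≤ 2 * k + 1 → c x = 0 := by
      intro x hx1 hx2
      by_cases hx0 : x = 0
      · rw [hx0, h0]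
      rcases (show x % 2 = 0 ∨ x % 2 = 1 by omega) with h | h
      · have := heven (k - (x / 2).toNat) (by omega)
        have e1 : 2 * ((k : ℤ) - ((k - (x / 2).toNat : ℕ) : ℤ)) = x := by omega
        rwa [e1] at this
      · have := hodd (x / 2).toNat (by omega)
        have e1 : 2 * (((x / 2).toNat : ℕ) : ℤ) + 1 = x := by omega
        rwa [e1] at this
    intro x hx1 hx2
    by_cases hx3 : x ≤ 2 * k + 1
    · exact hsmall x hx1 hx3
    · rw [← hs x hx1 hx2]
      exact hsmall _ (by omega) (by omega)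

end Pool.Agent.Helper929
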