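import Mathlib
import Pool.Agent.Helper929.Zero

set_option autoImplicit false

namespace Pool.Agent.Helper929

open Finset

theorem e_cast (p : ℤ) : ((e p : ℤ) : ZMod 2) = 1 := by
  apply cast_odd
  unfold e
  split_ifs <;> rfl

theorem th_cast (p : ℤ) : ((th p : ℤ) : ZMod 2) = 1 := by
  apply cast_odd
  unfold th
  split_ifs <;> rfl

theorem e2_cast (p q : ℤ) : ((e2 p q : ℤ) : ZMod 2) = 1 := by
  apply cast_odd
  unfold e2
  split_ifs <;> rfl

theorem e3_cast (p q : ℤ) : ((e3 p q : ℤ) : ZMod 2) = 1 := by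
  apply cast_odd
  unfold e3
  split_ifs <;> rfl

theorem bb_cast (m p : ℤ) : ((bb m p : ℤ) : ZMod 2) = bz m p := by
  unfold bb bz
  split_ifs
  · exact th_cast p
  · rfl

theorem z2_neg (a : ZMod 2) : -a = a := by
  revert a
  decide

theorem Fc_cast (m : ℤ) (c : ℤ → ℤ) (p q : ℤ) :
    ((Fc m c p q : ℤ) : ZMod 2) = (c (m - p - q) : ZMod 2) + c p + c q := by
  unfold Fc
  push_cast
  rw [e2_cast, th_cast, one_mul, one_mul, sub_eq_add_neg, sub_eq_add_neg, z2_neg, z2_neg]

theorem Gc_cast (m : ℤ) (c : ℤ → ℤ) (p q : ℤ) :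
    ((Gc m c p q : ℤ) : ZMod 2) = (c (m - p - q - 1) : ZMod 2) + c (p - 1) + c (q - 1)
      + (if p + q = m - 1 then bz m p * c p + bz m (p + 1) * c (p + 1) else 0) := by
  unfold Gc
  push_cast
  rw [e_cast, th_cast, e3_cast, bb_cast, bb_cast]
  simp only [z2_neg, one_mul, sub_eq_add_neg]

/-- The columns to be replaced. -/
def isU {n : ℕ} (k : ℕ) (v : Vert n) : Prop := cP v = 1 ∧ cQ v ≤ 2 * k

instance {n : ℕ} (k : ℕ) (v : Vert n) : Decidable (isU k v) := by
  unfold isU; infer_instance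

/-- The column operations. -/
noncomputable def Pt (n k : ℕ) (δ : ℤ) : Matrix (Vert n) (Vert n) ℤ :=
  Matrix.of fun x v => if isU k v then Fc (n + 2) (It (n + 2) (cQ v + δ)) (cP x) (cQ x)
    else if x = v then 1 else 0

/-- The remaining matrix. -/
noncomputable def Kt (n k : ℕ) (δ : ℤ) : Matrix (Vert n) (Vert n) ℤ :=
  Matrix.of fun w v => if isU k v then Gc (n + 2) (It (n + 2) (cQ v + δ)) (cP w) (cQ w)
    else ko n w v

theorem ko_mul_Pt (n k : ℕ) (δ : ℤ) (hδ : 0 ≤ δ) :
    ko n * Pt n k δ = Kt n k δ * Matrix.diagonal (fun v : Vert n => if isU k v then 2 else 1) := by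
  ext w v
  rw [Matrix.mul_diagonal, Matrix.mul_apply]
  simp only [Pt, Kt, ko, Matrix.of_apply]
  by_cases h : isU k v
  · simp only [if_pos h]
    have hv := inW v
    unfold InW at hv
    rw [ko_Fc (It (n + 2) (cQ v + δ)) (it_zero _ _ (by omega)) (it_sym _ _) w]
    ring
  · simp only [if_neg h]
    rw [Finset.sum_eq_single v]
    · rw [if_pos rfl]
    · intro x _ hx
      rw [if_neg hx, mul_zero]
    · intro h
      exact absurd (Finset.mem_univ v) h

theorem col_zero (k : ℕ) (hk : 1 ≤ k) (n : ℕ) (δ : ℤ) (hδ : δ = 0 ∨ δ = 1)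
    (hn : (n : ℤ) = 4 * k - 1 + δ) (z : Vert n → ZMod 2) (hz : ∀ v, ¬ isU k v → z v = 0)
    (hc : ∀ t : ℤ, 1 + δ ≤ t → t ≤ 2 * k + δ →
      ∑ x : Vert n, z x * ((Fc (n + 2) (It (n + 2) t) (cP x) (cQ x) : ℤ) : ZMod 2) = 0) :
    z = 0 := by
  have hA : ∀ t : ℤ, 2 ≤ t → 1 + δ ≤ t → t ≤ 2 * k + δ → ∀ x : Vert n, cP x = 1 →
      cQ x = t - 1 → z x = 0 := by
    intro t ht1 ht2 ht3 x hx1 hx2
    have e1 := hc t ht2 ht3
    rw [Finset.sum_eq_single x] at e1
    · have e2 : Fc (n + 2) (It (n + 2) t) (cP x) (cQ x) % 2 = 1 := by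
        rw [hx1, hx2]
        unfold Fc It e2 th
        split_ifs <;> omega
      rw [cast_odd _ e2, mul_one] at e1
      exact e1
    · intro y _ hy
      by_cases hU : isU k y
      · obtain ⟨hy1, hy2⟩ := hU
        have hy3 : cQ y ≠ t - 1 := by
          intro h
          exact hy (vert_ext (by rw [hy1, hx1]) (by rw [h, hx2]))
        have hW := inW y
        unfold InW at hW
        have e2 : Fc (n + 2) (It (n + 2) t) (cP y) (cQ y) % 2 = 0 := by
          rw [hy1]
          unfold Fc It e2 th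
          split_ifs <;> omega
        rw [cast_even _ e2, mul_zero]
      · rw [hz y hU, zero_mul]
    · intro h
      exact absurd (Finset.mem_univ x) h
  have hB : δ = 0 → ∀ x : Vert n, cP x = 1 → cQ x = 2 * k → z x = 0 := by
    intro hδ0 x hx1 hx2
    have e1 := hc 1 (by omega) (by omega)
    rw [Finset.sum_eq_single x] at e1
    · have e2 : Fc (n + 2) (It (n + 2) 1) (cP x) (cQ x) % 2 = 1 := by
        rw [hx1, hx2]
        unfold Fc It e2 th
        split_ifs <;> omega
      rw [cast_odd _ e2, mul_one] at e1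
      exact e1
    · intro y _ hy
      by_cases hU : isU k y
      · obtain ⟨hy1, hy2⟩ := hU
        have hy3 : cQ y ≠ 2 * k := by
          intro h
          exact hy (vert_ext (by rw [hy1, hx1]) (by rw [h, hx2]))
        have hW := inW y
        unfold InW at hW
        rw [hA (cQ y + 1) (by omega) (by omega) (by omega) y hy1 (by ring), zero_mul]
      · rw [hz y hU, zero_mul]
    · intro h
      exact absurd (Finset.mem_univ x) h
  funext x
  rw [Pi.zero_apply]
  by_cases hU : isU k x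
  · obtain ⟨hx1, hx2⟩ := hU
    have hW := inW x
    unfold InW at hW
    by_cases h3 : cQ x + 1 ≤ 2 * k + δ
    · exact hA (cQ x + 1) (by omega) (by omega) h3 x hx1 (by ring)
    · exact hB (by omega) x hx1 (by omega)
  · exact hz x hU

theorem det_odd_of {V : Type*} [Fintype V] [DecidableEq V] (M : Matrix V V ℤ)
    (h : ∀ z : V → ZMod 2, (∀ v, ∑ x, z x * ((M x v : ℤ) : ZMod 2) = 0) → z = 0) :
    ¬ (2 : ℤ) ∣ M.det := by
  intro hd
  have h1 : (M.map (Int.castRingHom (ZMod 2))).det = 0 := by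
    have h2 := (Int.castRingHom (ZMod 2)).map_det M
    rw [RingHom.mapMatrix_apply] at h2
    rw [← h2]
    have h3 : ((M.det : ℤ) : ZMod 2) = 0 := by
      rw [ZMod.intCast_zmod_eq_zero_iff_dvd]
      exact hd
    exact h3
  rw [← Matrix.exists_vecMul_eq_zero_iff] at h1
  obtain ⟨z, hz, hz2⟩ := h1
  apply hz
  apply h
  intro v
  have h4 := congrFun hz2 v
  simpa [Matrix.vecMul, dotProduct] using h4

theorem Pt_odd (k : ℕ) (hk : 1 ≤ k) (n : ℕ) (δ : ℤ) (hδ : δ = 0 ∨ δ = 1)
    (hn : (n : ℤ) = 4 * k - 1 + δ) : ¬ (2 : ℤ) ∣ (Pt n k δ).det := by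
  apply det_odd_of
  intro z hz
  apply col_zero k hk n δ hδ hn z
  · intro v hv
    have h1 := hz v
    simp only [Pt, Matrix.of_apply, if_neg hv] at h1
    rw [Finset.sum_eq_single v] at h1
    · rw [if_pos rfl] at h1
      push_cast at h1
      rw [mul_one] at h1
      exact h1
    · intro x _ hx
      rw [if_neg hx]
      push_cast
      rw [mul_zero]
    · intro h
      exact absurd (Finset.mem_univ v) h
  · intro t ht1 ht2
    have hW : InW n 1 (t - δ) := by
      unfold InW
      omega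
    have h1 := hz (mkV 1 (t - δ) hW)
    have hU : isU k (mkV 1 (t - δ) hW) := by
      unfold isU
      rw [cP_mkV, cQ_mkV]
      omega
    simp only [Pt, Matrix.of_apply, if_pos hU, cQ_mkV, sub_add_cancel] at h1
    exact h1

theorem Kt_odd (k : ℕ) (hk : 1 ≤ k) (n : ℕ) (δ : ℤ) (hδ : δ = 0 ∨ δ = 1)
    (hn : (n : ℤ) = 4 * k - 1 + δ) : ¬ (2 : ℤ) ∣ (Kt n k δ).det := by
  apply det_odd_of
  intro y hy
  have hU : ∀ t : ℤ, 1 + δ ≤ t → t ≤ 2 * k + δ →
      ∑ w : Vert n, y w * ((Gc (n + 2) (It (n + 2) t) (cP w) (cQ w) : ℤ) : ZMod 2) = 0 := by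
    intro t ht1 ht2
    have hW : InW n 1 (t - δ) := by
      unfold InW
      omega
    have h1 := hy (mkV 1 (t - δ) hW)
    have hU : isU k (mkV 1 (t - δ) hW) := by
      unfold isU
      rw [cP_mkV, cQ_mkV]
      omega
    simp only [Kt, Matrix.of_apply, if_pos hU, cQ_mkV, sub_add_cancel] at h1
    exact h1
  have hz0 : (fun v : Vert n => ∑ w : Vert n, y w * ((ko n w v : ℤ) : ZMod 2)) = 0 := by
    apply col_zero k hk n δ hδ hn
    · intro v hv
      have h1 := hy v
      simp only [Kt, Matrix.of_apply, if_neg hv] at h1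
      exact h1
    · intro t ht1 ht2
      simp only [Finset.sum_mul]
      rw [Finset.sum_comm]
      apply Finset.sum_eq_zero
      intro w _
      have h1 := ko_Fc (n := n) (It (n + 2) t) (it_zero _ _ (by omega)) (it_sym _ _) w
      have h2 : ∑ v : Vert n, y w * ((ko n w v : ℤ) : ZMod 2)
          * ((Fc (n + 2) (It (n + 2) t) (cP v) (cQ v) : ℤ) : ZMod 2) =
          y w * ((∑ v : Vert n, kz (cP w) (cQ w) (cP v) (cQ v)
            * Fc (n + 2) (It (n + 2) t) (cP v) (cQ v) : ℤ) : ZMod 2) := by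
        push_cast
        rw [Finset.mul_sum]
        apply Finset.sum_congr rfl
        intro v _
        simp only [ko, Matrix.of_apply]
        ring
      rw [h2, h1, cast_even _ (by omega), mul_zero]
  have hK : Ker ((n : ℤ) + 2) (ext y) := by
    refine ⟨?_, ?_, ?_, ?_⟩
    · intro q _ _
      apply ext_out
      unfold InW
      omega
    · intro q _ _
      apply ext_out
      unfold InW
      omega
    · intro p q _ _ _
      apply ext_out
      unfold InW
      omega
    · intro p q hp hq hpq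
      have hW : InW n p q := by
        unfold InW
        omega
      have h1 := congrFun hz0 (mkV p q hW)
      simp only [ko, Matrix.of_apply, cP_mkV, cQ_mkV, Pi.zero_apply] at h1
      have h2 := kz_sum (R := ZMod 2) y p q
      have h3 : ∑ w : Vert n, ((kz p q (cP w) (cQ w) : ℤ) : ZMod 2) * y w =
          ∑ w : Vert n, y w * ((kz (cP w) (cQ w) p q : ℤ) : ZMod 2) := by
        apply Finset.sum_congr rfl
        intro w _
        rw [kz_anti p q]
        push_cast
        rw [z2_neg]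
        ring
      rw [h3, h1, e_cast] at h2
      simp only [sub_eq_add_neg, z2_neg, one_mul] at h2
      rw [eq_comm] at h2
      have f1 : p + -1 = p - 1 := by ring
      have f2 : q + -1 = q - 1 := by ring
      rw [f1, f2] at h2
      linear_combination h2
  obtain ⟨c, c0, cs, c1, hc⟩ := hK.rep (by omega)
  have hyc : ∀ w : Vert n, y w = c (cP w) + c (cQ w) + c ((n : ℤ) + 2 - cP w - cQ w) := by
    intro w
    have hW := inW w
    unfold InW at hW
    rw [← ext_self y w]
    exact hc _ _ (by omega) (by omega) (by omega)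
  have hcz := c_zero k hk n δ hδ hn c c0 cs (fun h => c1 (by omega)) (by
    intro t ht1 ht2
    have h1 := pairing (n := n) (by omega) (bz (n + 2)) (fun x => ((It (n + 2) t x : ℤ) : ZMod 2))
      c (by rw [it_zero _ _ (by omega)]; rfl) c0 cs
    rw [← h1]
    refine Eq.trans ?_ (hU t ht1 ht2)
    apply Finset.sum_congr rfl
    intro w _
    rw [Gc_cast, ← hyc w]
    ring)
  funext w
  rw [hyc w, Pi.zero_apply]
  have hW := inW w
  unfold InW at hW
  rw [hcz _ (by omega) (by omega), hcz _ (by omega) (by omega), hcz _ (by omega) (by omega)]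
  rfl

theorem card_isU (k : ℕ) (hk : 1 ≤ k) (n : ℕ) (hn : 2 * k ≤ n) :
    (Finset.univ.filter (fun v : Vert n => isU k v)).card = 2 * k := by
  rw [← Finset.card_range (2 * k)]
  apply Finset.card_bij (fun v _ => (cQ v - 1).toNat)
  · intro v hv
    rw [Finset.mem_filter] at hv
    obtain ⟨_, h1, h2⟩ := hv
    have hW := inW v
    unfold InW at hW
    rw [Finset.mem_range]
    omega
  · intro v hv w hw h
    rw [Finset.mem_filter] at hv hw
    obtain ⟨_, h1, h2⟩ := hv
    obtain ⟨_, h3, h4⟩ := hw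
    have hW := inW v
    have hW' := inW w
    unfold InW at hW hW'
    apply vert_ext
    · rw [h1, h3]
    · omega
  · intro s hs
    rw [Finset.mem_range] at hs
    have hW : InW n 1 ((s : ℤ) + 1) := by
      unfold InW
      omega
    refine ⟨mkV 1 ((s : ℤ) + 1) hW, ?_, ?_⟩
    · rw [Finset.mem_filter]
      refine ⟨Finset.mem_univ _, ?_⟩
      unfold isU
      rw [cP_mkV, cQ_mkV]
      omega
    · rw [cQ_mkV]
      omega

theorem det_ko (k : ℕ) (hk : 1 ≤ k) (n : ℕ) (δ : ℤ) (hδ : δ = 0 ∨ δ = 1)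
    (hn : (n : ℤ) = 4 * k - 1 + δ) :
    ∃ a b : ℤ, ¬ (2 : ℤ) ∣ a ∧ ¬ (2 : ℤ) ∣ b ∧ (ko n).det * a = b * 2 ^ (2 * k) := by
  refine ⟨(Pt n k δ).det, (Kt n k δ).det, Pt_odd k hk n δ hδ hn, Kt_odd k hk n δ hδ hn, ?_⟩
  rw [← Matrix.det_mul, ko_mul_Pt n k δ (by omega), Matrix.det_mul, Matrix.det_diagonal,
    Finset.prod_ite, Finset.prod_const, Finset.prod_const_one, card_isU k hk n (by omega), mul_one]

theorem tri_closed (n : ℕ) : 2 * tri n = n * (n + 1) := by
  induction n with
  | zero => rfl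
  | succ n ih =>
    rw [tri_succ]
    linarith

theorem main (k : ℕ) (hk : 1 ≤ k) (n : ℕ) (hn : n = 4 * k - 1 ∨ n = 4 * k) :
    Nat.card {M : (triangleGraph n).Subgraph // M.IsPerfectMatching} ≠ 0 ∧
      padicValNat 2 (Nat.card {M : (triangleGraph n).Subgraph // M.IsPerfectMatching}) = k := by
  rw [card_perfectMatching]
  generalize hM : mc (triangleGraph n) univ = M
  have hev : Even (tri n) := by
    have h1 := tri_closed n
    rcases hn with h | h
    · obtain ⟨j, rfl⟩ : ∃ j, k = j + 1 := ⟨k - 1, by omega⟩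
      have h2 : n = 4 * j + 3 := by omega
      rw [h2] at h1
      refine ⟨(4 * j + 3) * (j + 1), ?_⟩
      rw [h2]
      linarith
    · subst h
      refine ⟨k * (4 * k + 1), ?_⟩
      linarith
  have hsq := count_sq n hev
  rw [hM, det_kmat] at hsq
  obtain ⟨a, b, ha, hb, hab⟩ : ∃ a b : ℤ, ¬ (2 : ℤ) ∣ a ∧ ¬ (2 : ℤ) ∣ b ∧
      (ko n).det * a = b * 2 ^ (2 * k) := by
    rcases hn with h | h
    · exact det_ko k hk n 0 (Or.inl rfl) (by omega)
    · exact det_ko k hk n 1 (Or.inr rfl) (by omega)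
  have h1 : (M : ℤ) ^ 2 * a = ((-1) ^ (Fintype.card (Vert n)) * b) * 2 ^ (2 * k) := by
    rw [hsq]
    linear_combination ((-1) ^ (Fintype.card (Vert n))) * hab
  have h2 : M ^ 2 * a.natAbs = b.natAbs * 2 ^ (2 * k) := by
    have h3 := congrArg Int.natAbs h1
    simpa [Int.natAbs_mul, Int.natAbs_pow] using h3
  have ha' : ¬ 2 ∣ a.natAbs := by
    intro h
    exact ha (Int.natCast_dvd.mpr h)
  have hb' : ¬ 2 ∣ b.natAbs := by
    intro h
    exact hb (Int.natCast_dvd.mpr h)
  have hb0 : b.natAbs ≠ 0 := by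
    intro h
    rw [h] at hb'
    exact hb' (dvd_zero 2)
  have ha0 : a.natAbs ≠ 0 := by
    intro h
    rw [h] at ha'
    exact ha' (dvd_zero 2)
  have hM0 : M ≠ 0 := by
    rintro rfl
    rw [zero_pow (by norm_num), zero_mul] at h2
    have : b.natAbs * 2 ^ (2 * k) ≠ 0 := by positivity
    exact this h2.symm
  refine ⟨hM0, ?_⟩
  have h3 := congrArg (padicValNat 2) h2
  have : Fact (Nat.Prime 2) := ⟨Nat.prime_two⟩
  rw [padicValNat.mul (pow_ne_zero 2 hM0) ha0, padicValNat.pow,
    padicValNat.mul hb0 (by positivity), padicValNat.prime_pow,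
    padicValNat.eq_zero_of_not_dvd ha', padicValNat.eq_zero_of_not_dvd hb'] at h3
  omega

end Pool.Agent.Helper929
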